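import Pool.Agent.NBT.Defs

/-!
# NBT squad (MP_e54c4c_gt), THEOREM BT: the main statements (interface between the sections)

Sections: A+B (`StmtsA.lean`, helper46): TBE TBF BIN BIL PJE PJF PJC ZMI SXN SXQ CHE.
C+D (`StmtsC.lean`, helper61): FLW LOC PUR RGA RGB SCC POT LVL.
E (`StmtsE.lean`, helper2): COC.  F+G (`StmtsF.lean`, helper13): FMS CLS SIG PZB BTF DMC.
The sections may add intermediate rows.  Every statement of this file is a row of the table nbt, its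
proof is in the docstring of the row of the section (or here).
-/

set_option autoImplicit false

open Matrix Filter Topology

namespace Pool.Agent.NBT

open Pool.Agent.PFS Pool.Agent.PFJ

/-! ## A. Boxes -/

/-- **TBE** (existence of a minimal family with boxes of constant dimensions). -/
def TbeStmt : Prop :=
  ∀ (n : ℕ) (C : Set (V n)) (Γ Γ₀ : Subgroup (GL (Fin n) ℝ)) (K : ℕ), CC C Γ → 3 ≤ K →
    MaxCard C Γ K → ∀ FF : (Fin K → V n) → Prop, FAM C Γ Γ₀ FF →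
    ∀ (w0 : Fin K → V n) (c0 : Finset (Fin K) → ℕ), FF w0 →
    (∀ I, ∃ L : Submodule ℝ (V n), IB C w0 I L ∧ c0 I ≤ Module.finrank ℝ L) →
    ∃ (T : (Fin K → V n) → Prop) (c : Finset (Fin K) → ℕ), TB C Γ Γ₀ T c ∧ Mnl C Γ Γ₀ T ∧
      (∀ w, T w → FF w) ∧ (∃ w, T w) ∧ ∀ I, c0 I ≤ c I

/-- **TBF** (basic facts). -/
def TbfStmt : Prop :=
  ∀ (n : ℕ) (C : Set (V n)) (Γ Γ₀ : Subgroup (GL (Fin n) ℝ)) (K : ℕ) (T : (Fin K → V n) → Prop)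
    (c : Finset (Fin K) → ℕ), TB C Γ Γ₀ T c → ∀ w : Fin K → V n, T w →
    (∀ I, Unt C (BI C w I) (fS w I)) ∧
    (∀ I, ∀ y ∈ closure C, ∀ M : ℝ, M • fS w I - y ∈ closure C → y ∈ BI C w I) ∧
    (∀ I, ∀ v ∈ BI C w I, ∀ r : Fin K → ℝ, v + ∑ m ∈ Iᶜ, r m • w m ∈ closure C →
      v ∈ closure C) ∧
    (∀ I J, BI C w I ⊓ BI C w J = BI C w (I ∩ J)) ∧
    (∀ I J, I ⊆ J → BI C w I ≤ BI C w J) ∧
    (∀ i I, w i ∈ BI C w I ↔ i ∈ I) ∧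
    (∀ i, Ext C (w i)) ∧
    (∀ i, ∀ x ∈ BI C w {i}, ∃ a : ℝ, x = a • w i) ∧
    (∀ i j, i ≠ j → 2 ≤ c {i, j}) ∧
    (∀ i j, i ≠ j → c {i, j} ≤ 2 → ∀ x ∈ BI C w {i, j}, ∃ a b : ℝ, x = a • w i + b • w j) ∧
    (∀ i j, i ≠ j → ∀ x ∈ BI C w {i, j}, ∀ y ∈ BI C w {i, j}, x ∈ closure C → y ∈ closure C →
      Ind2 x y → Unt C (BI C w {i, j}) (x + y)) ∧
    BI C w ∅ = ⊥ ∧ BI C w Finset.univ = ⊤

/-- **BIN** (invariance of the subspaces `B_I`). -/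
def BinStmt : Prop :=
  ∀ (n : ℕ) (C : Set (V n)) (Γ Γ₀ : Subgroup (GL (Fin n) ℝ)) (K : ℕ) (T : (Fin K → V n) → Prop)
    (c : Finset (Fin K) → ℕ), TB C Γ Γ₀ T c → ∀ w : Fin K → V n, T w →
    (∀ r : Fin K → ℝ, (∀ i, 0 < r i) → ∀ I, BI C (fun i => r i • w i) I = BI C w I) ∧
    (∀ g ∈ Γ₀, ∀ s : ℝ, 0 < s → T (fun i => s • act g (w i)) ∧
      ∀ I, BI C (fun i => s • act g (w i)) I = img g (BI C w I)) ∧
    (∀ w' : Fin K → V n, T w' → ∀ I, (∀ i ∈ I, w' i ∈ BI C w I) → BI C w' I = BI C w I) ∧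
    (∀ (k : Fin K) (x : V n) (I : Finset (Fin K)), k ∉ I →
      BI C (Function.update w k x) I = BI C w I)

/-- **BIL** (continuity of the subspaces `B_I`). -/
def BilStmt : Prop :=
  ∀ (n : ℕ) (C : Set (V n)) (Γ Γ₀ : Subgroup (GL (Fin n) ℝ)) (K : ℕ) (T : (Fin K → V n) → Prop)
    (c : Finset (Fin K) → ℕ), TB C Γ Γ₀ T c → ∀ (x : ℕ → Fin K → V n) (w : Fin K → V n),
    (∀ m, T (x m)) → T w → (∀ i, Tendsto (fun m => x m i) atTop (𝓝 (w i))) →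
    ∀ I, LimS (fun m => BI C (x m) I) (BI C w I)

/-! ## B. Projections and moves -/

/-- **PJE** (existence of the projections). -/
def PjeStmt : Prop :=
  ∀ (n : ℕ) (C : Set (V n)) (Γ Γ₀ : Subgroup (GL (Fin n) ℝ)) (K : ℕ) (T : (Fin K → V n) → Prop)
    (c : Finset (Fin K) → ℕ), TB C Γ Γ₀ T c → ∀ w : Fin K → V n, T w → ∀ I,
    ∃ p : V n →ₗ[ℝ] V n, PrI C w I p

/-- **PJF** (facts on the projections). -/
def PjfStmt : Prop :=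
  ∀ (n : ℕ) (C : Set (V n)) (Γ Γ₀ : Subgroup (GL (Fin n) ℝ)) (K : ℕ) (T : (Fin K → V n) → Prop)
    (c : Finset (Fin K) → ℕ), TB C Γ Γ₀ T c → ∀ w : Fin K → V n, T w → ∀ (I : Finset (Fin K))
    (p : V n →ₗ[ℝ] V n), PrI C w I p →
    (∀ m, m ∉ I → p (w m) = 0) ∧
    (∀ x ∈ C, Unt C (BI C w I) (p x)) ∧
    (∀ p' : V n →ₗ[ℝ] V n, PrI C w I p' → p' = p) ∧
    (∀ r : Fin K → ℝ, (∀ i, 0 < r i) → PrI C (fun i => r i • w i) I p) ∧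
    (∀ g ∈ Γ₀, ∀ s : ℝ, 0 < s → ∃ p' : V n →ₗ[ℝ] V n, PrI C (fun i => s • act g (w i)) I p' ∧
      ∀ x, p' (act g x) = act g (p x)) ∧
    (∀ w' : Fin K → V n, T w' → (∀ m, m ∉ I → w' m = w m) → ∀ p' : V n →ₗ[ℝ] V n,
      PrI C w' I p' → (∀ x, p (p' x) = p x) ∧ ∀ y ∈ BI C w' I, p' (p y) = y) ∧
    (∀ (J : Finset (Fin K)) (q : V n →ₗ[ℝ] V n), J ⊆ I → PrI C w J q → ∀ x, q (p x) = q x)

/-- **PJC** (continuity of the projections). -/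
def PjcStmt : Prop :=
  ∀ (n : ℕ) (C : Set (V n)) (Γ Γ₀ : Subgroup (GL (Fin n) ℝ)) (K : ℕ) (T : (Fin K → V n) → Prop)
    (c : Finset (Fin K) → ℕ), TB C Γ Γ₀ T c → ∀ (x : ℕ → Fin K → V n) (w : Fin K → V n),
    (∀ m, T (x m)) → T w → (∀ i, Tendsto (fun m => x m i) atTop (𝓝 (w i))) →
    ∀ (I : Finset (Fin K)) (pm : ℕ → (V n →ₗ[ℝ] V n)) (p : V n →ₗ[ℝ] V n) (ym : ℕ → V n)
      (y : V n), (∀ m, PrI C (x m) I (pm m)) → PrI C w I p → Tendsto ym atTop (𝓝 y) →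
      Tendsto (fun m => pm m (ym m)) atTop (𝓝 (p y))

/-- `(S, W, P, Q)` is the limit of the zoom of `w` at `e^{θ_m} f_S + f_{S^c}` -/
structure ZL {n K : ℕ} (C : Set (V n)) (T : (Fin K → V n) → Prop) (w : Fin K → V n)
    (S : Finset (Fin K)) (θ : ℕ → ℝ) (g : ℕ → GL (Fin n) ℝ) (s : ℕ → ℝ) (W : Fin K → V n)
    (P Q : V n →ₗ[ℝ] V n) : Prop where
  tw : T W
  lim : ∀ i, Tendsto (fun m => s m • act (g m) ((if i ∈ S then Real.exp (θ m) else 1) • w i))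
    atTop (𝓝 (W i))
  limP : ∀ (y : ℕ → V n) (y0 : V n), Tendsto y atTop (𝓝 y0) →
    Tendsto (fun m => s m • act (g m) (y m)) atTop (𝓝 (P y0))
  limQ : ∀ (y : ℕ → V n) (y0 : V n), (∀ m, y m ∈ BI C w S) → Tendsto y atTop (𝓝 y0) →
    Tendsto (fun m => (s m * Real.exp (θ m)) • act (g m) (y m)) atTop (𝓝 (Q y0))
  injP : ∀ y ∈ BI C w Sᶜ, P y ∈ closure C → y ∈ closure C
  injQ : ∀ y ∈ BI C w S, Q y ∈ closure C → y ∈ closure C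
  mapP : ∀ J, J ⊆ Sᶜ → (BI C w J).map P = BI C W J
  mapQ : ∀ J, J ⊆ S → (BI C w J).map Q = BI C W J

/-- **ZMI** (the zoom along `1_S` and the survival of moves). -/
def ZmiStmt : Prop :=
  ∀ (n : ℕ) (C : Set (V n)) (Γ Γ₀ : Subgroup (GL (Fin n) ℝ)) (K : ℕ) (T : (Fin K → V n) → Prop)
    (c : Finset (Fin K) → ℕ), TB C Γ Γ₀ T c → ∀ w : Fin K → V n, T w →
    ∀ (S : Finset (Fin K)) (θ : ℕ → ℝ), Tendsto θ atTop atTop →
    ∃ (φ : ℕ → ℕ) (g : ℕ → GL (Fin n) ℝ) (s : ℕ → ℝ) (W : Fin K → V n) (P Q : V n →ₗ[ℝ] V n),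
      StrictMono φ ∧ (∀ m, g m ∈ Γ₀) ∧ (∀ m, 0 < s m) ∧
      ZL C T w S (fun m => θ (φ m)) g s W P Q ∧
      (∀ (k : Fin K) (x : V n), Mv T w k x → k ∉ S → (∀ i, Sx C w k x i → i ∉ S) →
        Mv T W k (P x) ∧ ∀ i, Sx C W k (P x) i ↔ Sx C w k x i) ∧
      (∀ (k : Fin K) (x : V n), Mv T w k x → k ∈ S → (∀ i, Sx C w k x i → i ∈ S) →
        Mv T W k (Q x) ∧ ∀ i, Sx C W k (Q x) i ↔ Sx C w k x i)

/-- **SXN** (helpers of a move).  `J ∋ k` contains all helpers: `x ∈ B_J`. -/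
def SxnStmt : Prop :=
  ∀ (n : ℕ) (C : Set (V n)) (Γ Γ₀ : Subgroup (GL (Fin n) ℝ)) (K : ℕ) (T : (Fin K → V n) → Prop)
    (c : Finset (Fin K) → ℕ), TB C Γ Γ₀ T c → ∀ w : Fin K → V n, T w → ∀ (k : Fin K) (x : V n),
    Mv T w k x → (∃ i, Sx C w k x i) ∧ (∀ i, Sx C w k x i → 3 ≤ c {k, i}) ∧
      ∀ J : Finset (Fin K), k ∈ J → ((∀ i, Sx C w k x i → i ∈ J) ↔ x ∈ BI C w J)

/-- **CHE** (chain exclusion). -/
def CheStmt : Prop :=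
  ∀ (n : ℕ) (C : Set (V n)) (Γ Γ₀ : Subgroup (GL (Fin n) ℝ)) (K : ℕ) (T : (Fin K → V n) → Prop)
    (c : Finset (Fin K) → ℕ), TB C Γ Γ₀ T c → ∀ w : Fin K → V n, T w →
    ∀ (k m j : Fin K) (x y : V n), k ≠ m → m ≠ j → k ≠ j → c {k, j} ≤ 2 → Mv T w k x →
      Mv T w m y → Sx C w k x m → Sx C w m y j → False

/-! ## C. Flows -/

/-- `(W, W')` is an `S`-pair: same vertices outside `S`, the vertices in `S` of `W'` are
`W i + l_i` with `l_i` small relative to `f_{S^c}` -/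
structure SPr {n K : ℕ} (C : Set (V n)) (T : (Fin K → V n) → Prop) (S : Finset (Fin K))
    (W W' : Fin K → V n) : Prop where
  tw : T W
  tw' : T W'
  out : ∀ l, l ∉ S → W' l = W l
  prj : ∀ i ∈ S, ∀ p : V n →ₗ[ℝ] V n, PrI C W S p → p (W' i) = W i
  bnd : ∀ i ∈ S, W' i ∈ BI C W (insert i Sᶜ)

/-- **FLW** (the flow along `1_S` to the first failure; moves whose vertex and helpers are all in `S`
or all outside `S` survive). -/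
def FlwStmt : Prop :=
  ∀ (n : ℕ) (C : Set (V n)) (Γ Γ₀ : Subgroup (GL (Fin n) ℝ)) (K : ℕ) (T : (Fin K → V n) → Prop)
    (c : Finset (Fin K) → ℕ), TB C Γ Γ₀ T c → Mnl C Γ Γ₀ T → ∀ S : Finset (Fin K),
    ¬ Rig C T S → ∀ δ : ℝ, 0 < δ → ∀ w : Fin K → V n, T w →
    ∃ W W' : Fin K → V n, SPr C T S W W' ∧ Nr C δ W W' ∧ (∃ i ∈ S, W' i ∉ BI C W S) ∧
      ∀ (k : Fin K) (x : V n), Mv T w k x →
        ((k ∉ S ∧ ∀ i, Sx C w k x i → i ∉ S) ∨ (k ∈ S ∧ ∀ i, Sx C w k x i → i ∈ S)) →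
        ∃ y, Mv T W k y ∧ ∀ i, Sx C W k y i ↔ Sx C w k x i

/-- **LOC** (localisation of an `S`-pair at an index). -/
def LocStmt : Prop :=
  ∀ (n : ℕ) (C : Set (V n)) (Γ Γ₀ : Subgroup (GL (Fin n) ℝ)) (K : ℕ) (T : (Fin K → V n) → Prop)
    (c : Finset (Fin K) → ℕ), TB C Γ Γ₀ T c → ∀ (S : Finset (Fin K)) (W W' : Fin K → V n),
    SPr C T S W W' → ∀ i ∈ S, W' i ∉ BI C W S →
    ∃ (U : Fin K → V n) (y : V n), T U ∧ Mv T U i y ∧ (∀ r, Sx C U i y r → r ∉ S) ∧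
      (∀ J : Finset (Fin K), i ∈ J → W' i ∈ BI C W J → ∀ r, Sx C U i y r → r ∈ J) ∧
      ∀ (k : Fin K) (x : V n), Mv T W k x → (k = i ∨ k ∉ S) →
        (∀ r, Sx C W k x r → r = i ∨ r ∉ S) →
        ∃ y', Mv T U k y' ∧ ∀ r, Sx C U k y' r ↔ Sx C W k x r

/-- **PUR** (a move with one helper). -/
def PurStmt : Prop :=
  ∀ (n : ℕ) (C : Set (V n)) (Γ Γ₀ : Subgroup (GL (Fin n) ℝ)) (K : ℕ) (T : (Fin K → V n) → Prop)
    (c : Finset (Fin K) → ℕ), TB C Γ Γ₀ T c → ∀ w : Fin K → V n, T w →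
    ∀ (k j : Fin K) (x : V n), Mv T w k x → Sx C w k x j →
    ∃ (W : Fin K → V n) (y : V n), T W ∧ Mv T W k y ∧ ∀ r, Sx C W k y r ↔ r = j

/-- **RGA** (a set which is not rigid has an arrow leaving it). -/
def RgaStmt : Prop :=
  ∀ (n : ℕ) (C : Set (V n)) (Γ Γ₀ : Subgroup (GL (Fin n) ℝ)) (K : ℕ) (T : (Fin K → V n) → Prop)
    (c : Finset (Fin K) → ℕ), TB C Γ Γ₀ T c → Mnl C Γ Γ₀ T → (∃ w, T w) →
    ∀ S : Finset (Fin K), ¬ Rig C T S → ∃ k ∈ S, ∃ r, r ∉ S ∧ Arr C T k r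

/-- **RGB** (a set with an arrow leaving it is not rigid). -/
def RgbStmt : Prop :=
  ∀ (n : ℕ) (C : Set (V n)) (Γ Γ₀ : Subgroup (GL (Fin n) ℝ)) (K : ℕ) (T : (Fin K → V n) → Prop)
    (c : Finset (Fin K) → ℕ), TB C Γ Γ₀ T c →
    ∀ (S : Finset (Fin K)) (k r : Fin K), k ∈ S → r ∉ S → Arr C T k r → ¬ Rig C T S

/-- **SCC** (strong components have at most two elements). -/
def SccStmt : Prop :=
  ∀ (n : ℕ) (C : Set (V n)) (Γ Γ₀ : Subgroup (GL (Fin n) ℝ)) (K : ℕ) (T : (Fin K → V n) → Prop)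
    (c : Finset (Fin K) → ℕ), TB C Γ Γ₀ T c → Mnl C Γ Γ₀ T → NoTri c →
    ∀ i j l : Fin K, i ≠ j → j ≠ l → i ≠ l → Relation.ReflTransGen (Arr C T) i j →
      Relation.ReflTransGen (Arr C T) j l → Relation.ReflTransGen (Arr C T) l i → False

/-- **POT** (combinatorics: a potential). -/
def PotStmt : Prop :=
  ∀ (K : ℕ) (D : Fin K → Fin K → Prop),
    (∀ i j l : Fin K, i ≠ j → j ≠ l → i ≠ l → Relation.ReflTransGen D i j →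
      Relation.ReflTransGen D j l → Relation.ReflTransGen D l i → False) →
    ∃ a : Fin K → ℝ, (∀ k r, D k r → a k ≤ a r) ∧ (∀ k r, k ≠ r → a k = a r → D k r) ∧
      ∀ k r l, a k = a r → a r = a l → k = r ∨ r = l ∨ k = l

/-- **LVL** (the potential of a family without triangles). -/
def LvlStmt : Prop :=
  ∀ (n : ℕ) (C : Set (V n)) (Γ Γ₀ : Subgroup (GL (Fin n) ℝ)) (K : ℕ) (T : (Fin K → V n) → Prop)
    (c : Finset (Fin K) → ℕ), TB C Γ Γ₀ T c → Mnl C Γ Γ₀ T → (∃ w, T w) → NoTri c →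
    ∃ (a : Fin K → ℝ) (ε : ℝ), Pot C T c a ε

/-! ## E. Cocompactness along the flat -/

/-- **COC** (the stabiliser of the levels is cocompact along the flat). -/
def CocStmt : Prop :=
  ∀ (n : ℕ) (C : Set (V n)) (Γ Γ₀ : Subgroup (GL (Fin n) ℝ)) (K : ℕ) (T : (Fin K → V n) → Prop)
    (c : Finset (Fin K) → ℕ), TB C Γ Γ₀ T c → ∀ (a : Fin K → ℝ) (ε : ℝ), Pot C T c a ε →
    ∀ w : Fin K → V n, T w → ZoE C Γ₀ T a w

/-! ## F. Centralisers -/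

/-- **FMS** (Selberg's lemma for families). -/
def FmsStmt : Prop :=
  ∀ (n : ℕ) (C : Set (V n)) (Γ : Subgroup (GL (Fin n) ℝ)) (K : ℕ), CC C Γ →
    ∀ (q : ℕ) (α : Fin q → GL (Fin n) ℝ) (lam : Fin q → Fin K → ℝ), (∀ j, α j ∈ Γ) →
      FAM C Γ (Cen Γ α) (FxF C Γ α lam)

/-- **CLS** (equal eigenvalues along arrows). -/
def ClsStmt : Prop :=
  ∀ (n : ℕ) (C : Set (V n)) (Γ : Subgroup (GL (Fin n) ℝ)) (K : ℕ) (q : ℕ)
    (α : Fin q → GL (Fin n) ℝ) (lam : Fin q → Fin K → ℝ) (T : (Fin K → V n) → Prop)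
    (c : Finset (Fin K) → ℕ), (∀ j, α j ∈ Γ) → TB C Γ (Cen Γ α) T c →
    (∀ w, T w → FxF C Γ α lam w) → ∀ k r, Arr C T k r → ∀ j, lam j k = lam j r

/-- **SIG** (an element which separates a level). -/
def SigStmt : Prop :=
  ∀ (n : ℕ) (C : Set (V n)) (Γ : Subgroup (GL (Fin n) ℝ)) (K : ℕ) (q : ℕ)
    (α : Fin q → GL (Fin n) ℝ) (lam : Fin q → Fin K → ℝ) (T : (Fin K → V n) → Prop)
    (c : Finset (Fin K) → ℕ), (∀ j, α j ∈ Γ) → TB C Γ (Cen Γ α) T c →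
    (∀ w, T w → FxF C Γ α lam w) → (∃ w, T w) → ∀ (a : Fin K → ℝ) (ε : ℝ), Pot C T c a ε →
    (∃ k r : Fin K, k ≠ r ∧ a k = a r) →
    ∃ (w' : Fin K → V n) (σ : GL (Fin n) ℝ) (nu : Fin K → ℝ), FxF C Γ α lam w' ∧
      σ ∈ Cen Γ α ∧ (∀ i, act σ (w' i) = nu i • w' i) ∧ ∀ k r, k ≠ r → a k = a r → nu k ≠ nu r

/-- **PZB** (the periodic simplex when all levels are points). -/
def PzbStmt : Prop :=
  ∀ (n : ℕ) (C : Set (V n)) (Γ Γ₀ : Subgroup (GL (Fin n) ℝ)) (k : ℕ)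
    (T : (Fin (k + 1) → V n) → Prop) (c : Finset (Fin (k + 1)) → ℕ), TB C Γ Γ₀ T c →
    ∀ a : Fin (k + 1) → ℝ, (∀ i j, i ≠ j → a i ≠ a j) → ∀ w, T w → ZoE C Γ₀ T a w →
      Concl C Γ k w

/-- **BTF** (Theorem BT). -/
def BtfStmt : Prop :=
  ∀ (n : ℕ) (C : Set (V n)) (Γ : Subgroup (GL (Fin n) ℝ)), CC C Γ → ∀ k : ℕ, 2 ≤ k →
    MaxCard C Γ (k + 1) → (∃ w : Fin (k + 1) → V n, IsPES C Γ w) → NoBT C Γ (k + 1) →
    ∃ w : Fin (k + 1) → V n, IsPES C Γ w ∧ Concl C Γ k w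

/-- **DMC** (a box triangle needs codimension three). -/
def DmcStmt : Prop :=
  ∀ (n : ℕ) (C : Set (V n)) (Γ : Subgroup (GL (Fin n) ℝ)) (K : ℕ), CC C Γ → 3 ≤ K →
    MaxCard C Γ K → n ≤ K + 2 → NoBT C Γ K

end Pool.Agent.NBT
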