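import Pool.Agent.NBT.StmtsM
import Pool.Agent.NTS.StmtsE
import Pool.Agent.PFJ.StmtsG
import Pool.Agent.Helper82_PFJ.Main

/-!
# NBT squad (MP_e54c4c_gt), THEOREM BT: SECTIONS F and G (centralisers, the periodic simplex, assembly)

Rows: EGV PIM LVF CHX (statements in this file), FMS CLS SIG PZB BTF DMC (statements in `StmtsM`).
Landed theorems which may be used without hypotheses: `Pool.Agent.PFS.H60.{zom, elm, lin, crt}`,
`Pool.Agent.PFS.H37.{cloF, flmF, limF, lpsF, abeF, cmf...}`, `Pool.Agent.PFS.H81.chi`,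
`Pool.Agent.PFS.H32.frz`, `Pool.Agent.PFJ.H83.mxe`, `Pool.Agent.PFJ.H82.{bpbF, fixF}`,
`Pool.Agent.PFJ.H76e.ei2`, `CC.hul`, `PCone.normal`, `PCone.absorb`, `PCone.squeeze`.

**Row FMS** (Selberg's lemma for families; uses nothing).
Proof.  `sub`: `inf_le_left`.  `pes`: first component.  `inv`: ELM (2) with `s = 1`; `α_j g = g α_j`
(centraliser), so `α_j (g w_i) = g (α_j w_i) = lam_{ji} g w_i`.  `scl`: ELM (1).
`cld`: if the family is not empty then `2 ≤ K` (for `K = 0` `PES.pos` gives `0 ∈ C`; for `K = 1`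
`w_0 ∈ C` by `PES.pos` and `w_0 ∈ LamC`, not in `C`, `HulFacts.lamNot`); LPS: a subsequence tends to an
`IsPES` simplex, which is `w` by uniqueness of limits; eigenvector equations: limits (`CC.act_continuous`).
`cpt`: `p_m = ∑ x_m i ∈ C ∩ Hull` (`PES.pos`, ELM 4).  ZOM: `φ, g_m ∈ Γ, s_m, G_m p_{φ m} → p ∈ C`.
`lam_{ji} > 0` (`act α_j (w_i)` and `w_i` are in `closure C`, nonzero, salient), so with
`c0 = min lam`, `c1 = max lam` (over `i`; `K ≥ 1`) `c0 p_m ≤ α_j p_m ≤ c1 p_m`; as in row FIX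
(`Pool/Agent/.../FIX`, statement `Pool.Agent.PFB.FixStmt`): `Cmp C (c1/c0) (α_j p_m) p_m`, hence for
`τ_m = g_m α_j g_m⁻¹` `Cmp C (c1/c0) (τ_m G_m p_{φ m}) (G_m p_{φ m})`, CMC, CMF, PRP: `τ_m` takes finitely
many values for large `m`.  So for all `j` (finitely many) on a subsequence (pigeonhole) `g_m α_j g_m⁻¹`
does not depend on `m`; `h_m = g_{m0}⁻¹ g_m` commutes with all `α_j`: `h_m ∈ Cen Γ α`, and
`s_m act h_m (p_{φ m}) → act g_{m0}⁻¹ p ∈ C`.

**Row CLS** (equal eigenvalues along arrows; uses TBF PJF EGV PIM).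
Proof.  `Arr C T k r`: `w, x` with `T w`, `T (w[k→x])`, `x` not a multiple of `w_k`, `p` with
`PrI C w {k, r} p`, `q = p x` not a multiple of `w_k`.  `α_j w_i = lam_{ji} w_i`, `α_j x = lam_{jk} x` (`FxF` of
`w[k→x]` at `k`); all `lam > 0`.  PIM: `α_j q = p (α_j x) = lam_{jk} q`.  `q ∈ B_kr ∩ closure C`, `Ind2 q w_k`, so
`q + w_k` is a unit of `B_kr` (TBF), `w_r ≤ M (q + w_k)`.  EGV for `y = w_r`, `f = q + w_k`:
`lam_{jr} = lam_{jk}`.

**Row SIG** (an element separating all levels; uses COC TBF EGV PIM LVF CHX CLS).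
Proof.  Adapt `Pool/Agent/Helper75_NTW/BPW.lean` (`Lf C τ w i` becomes `BI C w (lev a i)`).  `T w`; COC:
`ZoE`.  LVF: `τ`.  `r_{m,i} = e^m` if `i < τ i`, `e^{-m}` if `τ i < i`, `1` if `τ i = i`: `φ, g_m ∈ Cen Γ α, s, v`,
`img g_m B = B = BI C v (lev a i)` for `B = BI C w (lev a i)`.  BPB for every `i < τ i` with `U0 = U1 = B`,
`x0 = w_i`, `x1 = w_{τ i}`, `X0 = v_i`, `X1 = v_{τ i}`, `e_m = e^{φ m}`: for all large `m0` and `m` all pairs at once
`y0, y1 ∈ B` with `σ y0 = lam' y0`, `σ y1 = mu' y1`, `0 < lam' < mu'`, `σ = g_{m0}⁻¹ g_m ∈ Cen Γ α`.  Single `i`: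
`σ w_i = κ w_i`, `κ > 0`.  `w'_i = y0`, `w'_{τ i} = y1`, `w'_i = w_i` for single `i`; `y0, y1` are not units (EI2 2).
CHX: `IsPES C Γ w'`.  `nu` = the eigenvalues.  `FxF`: for `α = α_j`: single `i`: clear.  Pair: `α y0 ∈ B`
(PIM), `σ α y0 = α σ y0 = lam' α y0`; EI2 (1): `α y0 = c y0` (`c > 0`), or `= c y1`, which has the other
eigenvalue; `y0 ≤ M (w_i + w_{τ i})` (TBF), `α (w_i + w_{τ i}) = lam_{ji} (w_i + w_{τ i})` by CLS (`Pot.two`);
EGV: `c = lam_{ji}`; the same for `y1`.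

**Row PZB** (uses TBF).
Proof.  All levels are points: `lev a i = {i}`, so `img g_m (BI C w {i}) = BI C w {i}` and by TBF
`act g_m w_i = κ w_i`; `κ > 0` (`closure C`, injective, salient).  Let `ℓ ≠ 0`, `∑ ℓ = 0`,
`r_{m,i} = exp (m ℓ_i)`: `s_m κ_{m,i} exp (φ(m) ℓ_i) w_i → v_i ≠ 0`.  The norms: `log s_m + log κ_{m,i} + φ(m) ℓ_i`
converges for every `i`; multiply by `ℓ_i` and sum: `∑ ℓ_i log κ_{m,i} + φ(m) ∑ ℓ_i²` converges, so
`∑ ℓ_i log κ_{m,i} ≠ 0` for large `m`; `γ = g_m ∈ Γ`, `χ_i = log κ_{m,i}` (see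
`Pool/Agent/Helper91_NTW/SEW.lean` for the computation).  CHI, ABE, FRZ, LIN, MXE (all vertices are
extreme by TBF; `3 ≤ k + 1` by `TB.three`) as in `Pool/Agent/Helper7_NTW/PZW.lean`.

**Row BTF** (uses TBE TBF FMS CLS SIG PZB LVL COC and `NngStmt` of NTS).
Proof.  `K = k + 1`.  For `q`, `α : Fin q → GL`, `lam` with `α_j ∈ Γ` and `FxF C Γ α lam` not empty let
`sep lam` be the number of pairs `(i, i')` with `lam_{ji} ≠ lam_{ji'}` for some `j`; it is `≤ K²`.  Choose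
`(q, α, lam)` with the largest `sep` (there is one: `q = 0`).  FMS: `FAM C Γ (Cen Γ α) (FxF ..)`.  TBE with
`c0 = 0` (box: `span {w_i : i ∈ I}`, the box property is NNG): `T, c`.  `NoTri c`: otherwise the faces
`BI C w ..` of some `w ∈ T` (`TB.box`, `TB.dim`) are a box triangle.  LVL: `a, ε`.  If `a` is injective: COC and
PZB for some `w ∈ T`.  Otherwise SIG: `w', σ, nu`; `α' = Fin.snoc α σ`, `lam' = Fin.snoc lam nu`: `w' ∈ FxF ..`,
and `sep lam' > sep lam`: separated pairs stay separated, and for `k ≠ r`, `a k = a r`, `lam_{jk} = lam_{jr}` for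
all `j` by CLS (`Pot.two`), but `nu k ≠ nu r`.  Contradiction.

**Row DMC** (uses TBE TBF PJE PJF FMS and `NngStmt` of NTS).
Proof.  Suppose `IsPES C Γ w0` and `BTri C w0 i j l`.  FMS with `q = 0`: `FAM C Γ (Cen Γ α) (FxF C Γ α lam)`.
TBE for `w0` and `c0 I = 3` for `I = {i,j}, {j,l}, {i,l}`, `0` otherwise (boxes: those of `BTri`, and
`span {w_i : i ∈ I}` by NNG): `T`, `c`, `w ∈ T`, `c {i,j}, c {j,l}, c {i,l} ≥ 3`.  PJE: projections
`p1, p2, p3` for the three pairs.  For `y ∈ BI C w {j, l}`: `p1 y` is a multiple of `w_j`: `y ≤ M (w_j + w_l)`,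
`-y ≤ M (w_j + w_l)` (unit, TBF), apply `p1` (`p1 w_l = 0`, `p1 w_j = w_j`): `± p1 y ≤ M w_j`, so
`M w_j + p1 y ∈ BI C w {j}` (TBF 2) is a multiple of `w_j` (TBF).  The same for the other pairs.  Choose
`u1 ∈ BI C w {i,j}` outside `span {w_i, w_j}` (dimension), and `u2`, `u3` similarly.  The linear map
`(Fin K → ℝ) × ℝ × ℝ × ℝ → V n`, `(b, α, β, γ) ↦ ∑ b_m w_m + α u1 + β u2 + γ u3` is injective: apply `p1`:
`b_i w_i + b_j w_j + α u1 + (multiple of w_i) + (multiple of w_j) = 0`, so `α = 0`; the same for `β`, `γ`;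
then LIN.  So `K + 3 ≤ n` (`LinearMap.finrank_le_finrank_of_injective`), contradiction.
-/

set_option autoImplicit false

open Matrix Filter Topology

namespace Pool.Agent.NBT

open Pool.Agent.PFS Pool.Agent.PFJ

/-- **Row EGV** (comparison of eigenvalues).  `y ≤ M f`, `g y = c y`, `g f = l f`, `c, l > 0`, `y ≠ 0`:
`c = l`.

Proof.  `M > 0`: otherwise `-y ∈ closure C`.  `g^N`, `N ∈ ℕ`: `c^N y ≤ M l^N f`, so `(c/l)^N y ≤ M f`; by
`PCone.normal` `(c/l)^N ‖y‖ ≤ B M ‖f‖` for all `N`, so `c ≤ l`.  The same for `g⁻¹` (eigenvalues `c⁻¹, l⁻¹`):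
`l ≤ c`. -/
def EgvStmt : Prop :=
  ∀ (n : ℕ) (C : Set (V n)) (Γ : Subgroup (GL (Fin n) ℝ)), CC C Γ → ∀ g ∈ Γ,
    ∀ (y f : V n) (M c l : ℝ), y ∈ closure C → y ≠ 0 → f ∈ closure C → M • f - y ∈ closure C →
    act g y = c • y → act g f = l • f → 0 < c → 0 < l → c = l

/-- **Row PIM** (an element of `Γ` which fixes the rays of the vertices preserves the subspaces `B_I` and
commutes with the projections).

Proof.  (1) `act g` maps `Face C x` onto `Face C (act g x)` (`CC.act_cl_iff`), so `img g (BI C w I)` is the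
span of `Face C (∑_{i ∈ I} l_i w_i)`, and `Face C` of a positive combination of the `w_i`, `i ∈ I`, is
`Face C (fS w I)` (comparable vectors; or BIN (1) for the rescaled tuple).
(2) `p' x = act g (p (act g⁻¹ x))` satisfies `PrI C w I p'`: `mem`, `idB` by (1), `pos` (`CC.act_cl`), `ker`:
`Sml C v u ↔ Sml C v (act g u)` if `act g v` and `v` are comparable (apply `act g`, `act g⁻¹` to the
inequalities; `act g` maps `C` onto `C`; `v = fS w Iᶜ`).  Uniqueness (PJF 3): `p' = p`. -/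
def PimStmt : Prop :=
  ∀ (n : ℕ) (C : Set (V n)) (Γ Γ₀ : Subgroup (GL (Fin n) ℝ)) (K : ℕ) (T : (Fin K → V n) → Prop)
    (c : Finset (Fin K) → ℕ), TB C Γ Γ₀ T c → ∀ w : Fin K → V n, T w → ∀ g ∈ Γ,
    ∀ l : Fin K → ℝ, (∀ i, 0 < l i) → (∀ i, act g (w i) = l i • w i) →
    (∀ I, img g (BI C w I) = BI C w I) ∧
    ∀ (I : Finset (Fin K)) (p : V n →ₗ[ℝ] V n), PrI C w I p → ∀ x, p (act g x) = act g (p x)

/-- **Row LVF** (combinatorics of the levels): the involution exchanging the two elements of every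
two-element level.

Proof.  `τ i` = an index `j ≠ i` with `a j = a i` if there is one (unique by the hypothesis), `i`
otherwise. -/
def LvfStmt : Prop :=
  ∀ (K : ℕ) (a : Fin K → ℝ), (∀ k r l, a k = a r → a r = a l → k = r ∨ r = l ∨ k = l) →
    ∃ τ : Fin K → Fin K, (∀ i, τ (τ i) = i) ∧ (∀ i, a (τ i) = a i) ∧
      (∀ i j, i ≠ j → a i = a j → j = τ i) ∧ (∀ i, lev a i = {i, τ i}) ∧
      ∀ i, lev a (τ i) = lev a i

/-- **Row CHX** (change of the vertices in the two-element levels).  `τ` as in LVF.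

Proof.  `∑ w' ∈ C`: for `τ i ≠ i` `w'_i + w'_{τ i}` is a unit of `BI C w {i, τ i}` (TBF, strictness), so
`w_i ≤ M_i (w'_i + w'_{τ i}) ≤ M_i ∑ w'`; for `τ i = i` `w'_i = c w_i` (TBF), `c > 0` (salient, `w'_i ≠ 0`), so
`w_i ≤ c⁻¹ ∑ w'`; sum up: `∑ w ≤ (∑ M_i) ∑ w'`, and `∑ w ∈ C`.
CRT.  Suppose `∑_{j≠i} w'_j ∈ C`.  All `w'_j ≤ N (w_j + w_{τ j})` (unit, TBF 1).  If `τ i = i`, then
`∑_{j≠i} w'_j ≤ 2 N ∑_{j≠i} w_j` (`τ` permutes the `j ≠ i`), so `∑_{j≠i} w_j ∈ C`, contradicting `bd`.  If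
`r = τ i ≠ i`: `w'_r + ∑_{j≠i,r} w'_j ≤ w'_r + 2 N ∑_{j≠i,r} w_j`, which is in `C`; absorb: for some `M > 0`
`(M w'_r - fS w {i, r}) + 2 N M ∑_{j≠i,r} w_j ∈ closure C`; TBF (3): `M w'_r - fS w {i, r} ∈ closure C`, so
`w'_r` is a unit of `BI C w {i, r}` (`z ≤ M' fS w {i, r}`), contradiction.
`w'_i ∈ LamC`: `f = w_i + w_{τ i}` is in `Hull`, nonzero and not in `C` (`bd`: `K ≥ 3`, some index is
omitted), so in `LamC` (CLO, constant sequence); `w'_i ≤ N f`; FLM and scaling. -/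
def ChxStmt : Prop :=
  ∀ (n : ℕ) (C : Set (V n)) (Γ Γ₀ : Subgroup (GL (Fin n) ℝ)) (K : ℕ) (T : (Fin K → V n) → Prop)
    (c : Finset (Fin K) → ℕ), TB C Γ Γ₀ T c → ∀ w : Fin K → V n, T w →
    ∀ τ : Fin K → Fin K, (∀ i, τ (τ i) = i) → ∀ w' : Fin K → V n,
    (∀ i, w' i ∈ BI C w {i, τ i} ∧ w' i ∈ closure C ∧ w' i ≠ 0) →
    (∀ i, τ i ≠ i → Ind2 (w' i) (w' (τ i)) ∧ ¬ Unt C (BI C w {i, τ i}) (w' i)) →
    IsPES C Γ w'

end Pool.Agent.NBT
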