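import Pool.Agent.NTW.Defs
import Pool.Agent.PCO.Defs

/-!
# NBT squad (MP_e54c4c_gt), THEOREM BT: definitions

THEOREM BT.  Let `Γ` act convex cocompactly on the domain of the cone `C ⊆ ℝ^n`, `K = k + 1 ≥ 3` the
maximal number of vertices of a properly embedded simplex with vertices in the limit set.  Suppose
that no such simplex with `K` vertices has a BOX TRIANGLE (three vertices, each pair of them in a
pair box of dimension at least three).  Then some such simplex is a maximal properly embedded simplex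
preserved by a subgroup of `Γ` isomorphic to `ℤ^k`.  COROLLARY: this holds if `n ≤ K + 2`.
Paper proof: note 3551 (table notes, MP_e54c4c_gt).

Conventions.  `x ≤ y` means `y - x ∈ closure C`.  `G = s • act g` scaled group element.
`f_I = fS w I = ∑_{i ∈ I} w_i`; `B_I = BI C w I` the span of the open face of `f_I`;
`W[k→x] = Function.update W k x`.
-/

set_option autoImplicit false

open Matrix Filter Topology

namespace Pool.Agent.NBT

open Pool.Agent.PFS Pool.Agent.PFJ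

variable {n K : ℕ}

/-- partial sums of the vertices -/
noncomputable def fS (w : Fin K → V n) (I : Finset (Fin K)) : V n := ∑ i ∈ I, w i

/-- `L` is an `I`-box of `w` -/
structure IB (C : Set (V n)) (w : Fin K → V n) (I : Finset (Fin K)) (L : Submodule ℝ (V n)) :
    Prop where
  mem : ∀ i ∈ I, w i ∈ L
  box : ∀ v ∈ L, v + fS w Iᶜ ∈ closure C → v ∈ closure C

/-- the span of the open face of `f_I` -/
noncomputable def BI (C : Set (V n)) (w : Fin K → V n) (I : Finset (Fin K)) :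
    Submodule ℝ (V n) :=
  Submodule.span ℝ (Face C (fS w I))

/-- a group `Γ₀ ≤ Γ` and a closed, invariant family of simplices which is compact modulo `Γ₀` -/
structure FAM (C : Set (V n)) (Γ Γ₀ : Subgroup (GL (Fin n) ℝ)) (T : (Fin K → V n) → Prop) :
    Prop where
  sub : Γ₀ ≤ Γ
  pes : ∀ w, T w → IsPES C Γ w
  inv : ∀ w, T w → ∀ g ∈ Γ₀, T (fun i => act g (w i))
  scl : ∀ w, T w → ∀ r : Fin K → ℝ, (∀ i, 0 < r i) → T (fun i => r i • w i)
  cld : ∀ (x : ℕ → Fin K → V n) (w : Fin K → V n), (∀ m, T (x m)) →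
    (∀ i, Tendsto (fun m => x m i) atTop (𝓝 (w i))) → ∑ i, w i ∈ C → T w
  cpt : ∀ x : ℕ → Fin K → V n, (∀ m, T (x m)) →
    ∃ (φ : ℕ → ℕ) (g : ℕ → GL (Fin n) ℝ) (s : ℕ → ℝ) (p : V n), StrictMono φ ∧
      (∀ m, g m ∈ Γ₀) ∧ (∀ m, 0 < s m) ∧ p ∈ C ∧
      Tendsto (fun m => s m • act (g m) (∑ i, x (φ m) i)) atTop (𝓝 p)

/-- a family whose faces are boxes of constant dimensions -/
structure TB (C : Set (V n)) (Γ Γ₀ : Subgroup (GL (Fin n) ℝ)) (T : (Fin K → V n) → Prop)
    (c : Finset (Fin K) → ℕ) : Prop extends FAM C Γ Γ₀ T where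
  cc : CC C Γ
  three : 3 ≤ K
  maxc : MaxCard C Γ K
  box : ∀ w, T w → ∀ I, IB C w I (BI C w I)
  dim : ∀ w, T w → ∀ I, Module.finrank ℝ (BI C w I) = c I

/-- minimality -/
def Mnl (C : Set (V n)) (Γ Γ₀ : Subgroup (GL (Fin n) ℝ)) (T : (Fin K → V n) → Prop) : Prop :=
  ∀ T' : (Fin K → V n) → Prop, FAM C Γ Γ₀ T' → (∀ w, T' w → T w) → (∃ w, T' w) → ∀ w, T w → T' w

/-- `z` is near `w` -/
def Nr (C : Set (V n)) (ε : ℝ) (w z : Fin K → V n) : Prop :=
  ∀ i, ε • (∑ m, w m) - (z i - w i) ∈ closure C ∧ ε • (∑ m, w m) + (z i - w i) ∈ closure C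

/-- `p` is the monotone projection to `B_I` along the vectors small relative to the other
vertices -/
structure PrI (C : Set (V n)) (w : Fin K → V n) (I : Finset (Fin K)) (p : V n →ₗ[ℝ] V n) :
    Prop where
  mem : ∀ x, p x ∈ BI C w I
  idB : ∀ y ∈ BI C w I, p y = y
  pos : ∀ x ∈ closure C, p x ∈ closure C
  ker : ∀ x, p x = 0 ↔ Pool.Agent.PCO.Sml C (fS w Iᶜ) x

/-- `x` is a move of the vertex `k` of `w` in the family `T` -/
structure Mv (T : (Fin K → V n) → Prop) (w : Fin K → V n) (k : Fin K) (x : V n) : Prop where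
  mem : T (Function.update w k x)
  ne : ∀ c : ℝ, x ≠ c • w k

/-- `i` is a helper of the move `x` of the vertex `k` -/
def Sx (C : Set (V n)) (w : Fin K → V n) (k : Fin K) (x : V n) (i : Fin K) : Prop :=
  i ≠ k ∧ ∃ p : V n →ₗ[ℝ] V n, PrI C w {k, i} p ∧ ∀ c : ℝ, p x ≠ c • w k

/-- the arrows `k → r` of the family -/
def Arr (C : Set (V n)) (T : (Fin K → V n) → Prop) (k r : Fin K) : Prop :=
  ∃ (w : Fin K → V n) (x : V n), T w ∧ Mv T w k x ∧ Sx C w k x r

/-- the subspaces `B_S` are locally constant -/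
def Rig (C : Set (V n)) (T : (Fin K → V n) → Prop) (S : Finset (Fin K)) : Prop :=
  ∃ ε : ℝ, 0 < ε ∧ ∀ w z, T w → T z → Nr C ε w z → BI C w S = BI C z S

/-- the level set of the index `i` -/
noncomputable def lev (a : Fin K → ℝ) (i : Fin K) : Finset (Fin K) :=
  Finset.univ.filter fun j => a j = a i

/-- the upper set `a ≥ s` -/
noncomputable def upp (a : Fin K → ℝ) (s : ℝ) : Finset (Fin K) :=
  Finset.univ.filter fun j => s ≤ a j

/-- a potential for the family: `B` is locally constant on the upper sets, the level sets have at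
most two elements, pairs on a level are double arrows -/
structure Pot (C : Set (V n)) (T : (Fin K → V n) → Prop) (c : Finset (Fin K) → ℕ)
    (a : Fin K → ℝ) (ε : ℝ) : Prop where
  pos : 0 < ε
  rig : ∀ s : ℝ, ∀ w z, T w → T z → Nr C ε w z → BI C w (upp a s) = BI C z (upp a s)
  two : ∀ k r, k ≠ r → a k = a r → 3 ≤ c {k, r} ∧ Arr C T k r
  lev3 : ∀ k r l, a k = a r → a r = a l → k = r ∨ r = l ∨ k = l

/-- zooming along the flat of `w` is possible with elements which preserve the subspaces of all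
levels -/
def ZoE (C : Set (V n)) (Γ₀ : Subgroup (GL (Fin n) ℝ)) (T : (Fin K → V n) → Prop)
    (a : Fin K → ℝ) (w : Fin K → V n) : Prop :=
  ∀ r : ℕ → Fin K → ℝ, (∀ m i, 0 < r m i) →
    ∃ (φ : ℕ → ℕ) (g : ℕ → GL (Fin n) ℝ) (s : ℕ → ℝ) (v : Fin K → V n), StrictMono φ ∧
      (∀ m, g m ∈ Γ₀) ∧ (∀ m, 0 < s m) ∧ T v ∧
      (∀ i, Tendsto (fun m => s m • act (g m) (r (φ m) i • w i)) atTop (𝓝 (v i))) ∧
      (∀ m i, img (g m) (BI C w (lev a i)) = BI C w (lev a i)) ∧
      ∀ i, BI C v (lev a i) = BI C w (lev a i)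

/-- no triangle of nontrivial pairs -/
def NoTri (c : Finset (Fin K) → ℕ) : Prop :=
  ∀ i j l : Fin K, i ≠ j → j ≠ l → i ≠ l → 3 ≤ c {i, j} → 3 ≤ c {j, l} → c {i, l} ≤ 2

/-- a box triangle of `w` -/
def BTri (C : Set (V n)) (w : Fin K → V n) (i j l : Fin K) : Prop :=
  i ≠ j ∧ j ≠ l ∧ i ≠ l ∧
    (∃ L : Submodule ℝ (V n), IB C w {i, j} L ∧ 3 ≤ Module.finrank ℝ L) ∧
    (∃ L : Submodule ℝ (V n), IB C w {j, l} L ∧ 3 ≤ Module.finrank ℝ L) ∧
    ∃ L : Submodule ℝ (V n), IB C w {i, l} L ∧ 3 ≤ Module.finrank ℝ L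

/-- no top simplex has a box triangle -/
def NoBT (C : Set (V n)) (Γ : Subgroup (GL (Fin n) ℝ)) (K : ℕ) : Prop :=
  ∀ w : Fin K → V n, IsPES C Γ w → ∀ i j l, ¬ BTri C w i j l

/-- the simplices whose vertices are fixed by the elements `α` with the eigenvalues `lam` -/
def FxF (C : Set (V n)) (Γ : Subgroup (GL (Fin n) ℝ)) {q : ℕ} (α : Fin q → GL (Fin n) ℝ)
    (lam : Fin q → Fin K → ℝ) (w : Fin K → V n) : Prop :=
  IsPES C Γ w ∧ ∀ j i, act (α j) (w i) = lam j i • w i

/-- the centraliser of the elements `α` in `Γ` -/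
def Cen (Γ : Subgroup (GL (Fin n) ℝ)) {q : ℕ} (α : Fin q → GL (Fin n) ℝ) :
    Subgroup (GL (Fin n) ℝ) :=
  Γ ⊓ Subgroup.centralizer (Set.range α)

end Pool.Agent.NBT
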