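import Pool.Agent.NBT.StmtsM
import Pool.Agent.Helper27_NTS.NNG
import Pool.Agent.Helper56_NTS.EXV
import Pool.Agent.Helper27_NTW.FCS
import Pool.Agent.Helper21_NTW.UOP
import Pool.Agent.Helper10_NTW.PBF
import Pool.Agent.Helper90_NTW.BXT

/-!
# NBT squad (MP_e54c4c_gt), THEOREM BT: SECTIONS A + B (boxes, projections, moves)

The statements `TbeStmt TbfStmt BinStmt BilStmt PjeStmt PjfStmt PjcStmt ZmiStmt SxnStmt CheStmt` are in
`Pool/Agent/NBT/StmtsM.lean`; their complete proofs are here (module comments), together with the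
intermediate rows (statements and proofs).

PROVED THEOREMS, to be used WITHOUT hypotheses (all are imported): in this file `nng : NngStmt`
(nonnegative coefficients), `exv : ExvStmt` (the vertices of top simplices are extreme),
`fcs : FcsStmt` (faces and their spans), `uop : UopStmt` (units are interior points),
`pbf : PbfStmt`, `bxt : BxtStmt` (pair boxes of dimension at least three are strictly convex); and
the rows of PFS and PFJ: `Pool.Agent.PFS.H60.zom elm lin crt fun_`, `H37.cloF : CloStmt`,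
`H37.flmF : FlmStmt`, `H37.limF : LimStmt`, `H37.lpsF : LpsStmt`, `CC.hul : HulFacts C Γ`,
`PCone.normal`, `PCone.absorb`, `PCone.squeeze`, `PES.cl`, `PES.sum_mem`,
`Pool.Agent.PFJ.H69.lsc : LscStmt`, `Pool.Agent.PFJ.H10.lsf : LsfStmt`, `Pool.Agent.PFJ.H32.img : ImgStmt`,
`Pool.Agent.PFJ.H76.unf : UnfStmt`, `Pool.Agent.PFJ.H10.fmx : FmxStmt`.

Abbreviations in the proofs: `f_I = fS w I`, `f = ∑ w = f_I + f_{Iᶜ} ∈ C`, `B_I = BI C w I`; `x ≤ y` means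
`y - x ∈ closure C`; `±x ≤ y` means `y - x, y + x ∈ closure C`.  FCS (2) in the form used all the time
(FCE): if `±v ≤ M f_I` for some `M` then `v ∈ B_I` (`0 ≤ M f_I + v ≤ 2 M f_I`, and `f_I ∈ B_I`); it is the
proved lemma `fce` below; see also the small proved lemmas `unt_two`, `absorb_two`, `cl_of_eps`, `ind2_of_ne`,
`fS_cl`, `fS_add_compl`, `fS_pair`, `fS_update`.
-/

set_option autoImplicit false

open Matrix Filter Topology

namespace Pool.Agent.NBT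

open Pool.Agent.PFS Pool.Agent.PFJ

/-! ## Proved library rows -/

theorem nng : Pool.Agent.NTS.NngStmt := Pool.Agent.NTS.H27.nng
theorem exv : Pool.Agent.NTS.ExvStmt := Pool.Agent.NTS.H56.exv nng
theorem fcs : Pool.Agent.NTW.FcsStmt := Pool.Agent.NTW.H27.fcs
theorem uop : Pool.Agent.NTW.UopStmt := Pool.Agent.NTW.H21.uop
theorem pbf : Pool.Agent.NTW.PbfStmt := Pool.Agent.NTW.H10.pbf fcs nng
theorem bxt : Pool.Agent.NTW.BxtStmt := Pool.Agent.NTW.H90.bxt pbf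

/-! ## Small proved lemmas -/

section Lib

variable {n K : ℕ} {C : Set (V n)}

theorem fS_cl (h : PCone C) {w : Fin K → V n} (hw : ∀ i, w i ∈ closure C) (I : Finset (Fin K)) :
    fS w I ∈ closure C :=
  h.cl_sum fun i _ => hw i

theorem fS_add_compl (w : Fin K → V n) (I : Finset (Fin K)) : fS w I + fS w Iᶜ = ∑ i, w i :=
  Finset.sum_add_sum_compl I w

theorem fS_univ (w : Fin K → V n) : fS w Finset.univ = ∑ i, w i := rfl

theorem fS_single (w : Fin K → V n) (i : Fin K) : fS w {i} = w i := Finset.sum_singleton w i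

theorem fS_pair (w : Fin K → V n) {i j : Fin K} (hij : i ≠ j) : fS w {i, j} = w i + w j :=
  Finset.sum_pair hij

theorem fS_add_sdiff (w : Fin K → V n) {I J : Finset (Fin K)} (h : I ⊆ J) :
    fS w I + fS w (J \ I) = fS w J := by
  unfold fS
  rw [add_comm, Finset.sum_sdiff h]

theorem fS_update (w : Fin K → V n) (k : Fin K) (x : V n) {I : Finset (Fin K)} (hk : k ∉ I) :
    fS (Function.update w k x) I = fS w I := by
  unfold fS
  refine Finset.sum_congr rfl fun i hi => ?_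
  rw [Function.update_of_ne]
  rintro rfl
  exact hk hi

/-- (FCE) a vector between `-M f_I` and `M f_I` is in `BI C w I` -/
theorem fce (h : PCone C) {w : Fin K → V n} (hw : ∀ i, w i ∈ closure C) {I : Finset (Fin K)}
    {v : V n} {M : ℝ} (h1 : M • fS w I - v ∈ closure C) (h2 : M • fS w I + v ∈ closure C) :
    v ∈ BI C w I := by
  have hf := fS_cl h hw I
  obtain ⟨hu, hl, -⟩ := fcs n C h (fS w I) hf
  have h3 : M • fS w I + v ∈ BI C w I := by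
    refine hl _ h2 (2 * M) ?_
    have h4 : (2 * M) • fS w I - (M • fS w I + v) = M • fS w I - v := by
      rw [two_mul, add_smul]; abel
    rw [h4]; exact h1
  have h5 : v = (M • fS w I + v) - M • fS w I := by abel
  rw [h5]
  exact Submodule.sub_mem _ h3 (Submodule.smul_mem _ _ hu.1)

/-- a unit dominates both `z` and `-z` -/
theorem unt_two (h : PCone C) {L : Submodule ℝ (V n)} {y : V n} (hy : Unt C L y) {z : V n}
    (hz : z ∈ L) : ∃ M : ℝ, 0 < M ∧ M • y - z ∈ closure C ∧ M • y + z ∈ closure C := by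
  obtain ⟨M1, hM1, h1⟩ := hy.2.2 z hz
  obtain ⟨M2, hM2, h2⟩ := hy.2.2 (-z) (Submodule.neg_mem _ hz)
  refine ⟨M1 + M2, by positivity, ?_, ?_⟩
  · have h3 : (M1 + M2) • y - z = (M1 • y - z) + M2 • y := by rw [add_smul]; abel
    rw [h3]; exact h.cl_add h1 (h.cl_smul hy.2.1 hM2.le)
  · have h3 : (M1 + M2) • y + z = (M2 • y - -z) + M1 • y := by rw [add_smul]; abel
    rw [h3]; exact h.cl_add h2 (h.cl_smul hy.2.1 hM1.le)

/-- a point of `C` dominates both `z` and `-z` -/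
theorem absorb_two (h : PCone C) {p : V n} (hp : p ∈ C) (z : V n) :
    ∃ M : ℝ, 0 < M ∧ M • p - z ∈ C ∧ M • p + z ∈ C := by
  obtain ⟨M1, hM1, h1⟩ := h.absorb hp z
  obtain ⟨M2, hM2, h2⟩ := h.absorb hp (-z)
  have hpc : p ∈ closure C := subset_closure hp
  refine ⟨M1 + M2, by positivity, ?_, ?_⟩
  · have h3 : (M1 + M2) • p - z = (M1 • p - z) + M2 • p := by rw [add_smul]; abel
    rw [h3]; exact h.add_cl h1 (h.cl_smul hpc hM2.le)
  · have h3 : (M1 + M2) • p + z = (M2 • p - -z) + M1 • p := by rw [add_smul]; abel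
    rw [h3]; exact h.add_cl h2 (h.cl_smul hpc hM1.le)

/-- passing to the limit `ε → 0` -/
theorem cl_of_eps {v f : V n} (h : ∀ ε : ℝ, 0 < ε → v + ε • f ∈ closure C) :
    v ∈ closure C := by
  have ht : Tendsto (fun m : ℕ => v + (1 / ((m : ℝ) + 1)) • f) atTop (𝓝 (v + (0 : ℝ) • f)) :=
    tendsto_const_nhds.add (tendsto_one_div_add_atTop_nhds_zero_nat.smul_const f)
  rw [zero_smul, add_zero] at ht
  exact isClosed_closure.mem_of_tendsto ht (Eventually.of_forall fun m => h _ (by positivity))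

/-- an extreme vector dominates only its multiples -/
theorem ext_mul {e y : V n} (he : Ext C e) (hy : y ∈ closure C) {M : ℝ}
    (h : M • e - y ∈ closure C) : ∃ a : ℝ, y = a • e :=
  he y hy M h

/-- two non proportional vectors are independent -/
theorem ind2_of_ne {x y : V n} (hy : y ≠ 0) (hx : ∀ a : ℝ, x ≠ a • y) : Ind2 x y := by
  intro a b hab
  have ha : a = 0 := by
    by_contra ha
    refine hx (-(a⁻¹ * b)) ?_
    have h1 : a • x = -(b • y) := eq_neg_of_add_eq_zero_left hab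
    have h2 : x = a⁻¹ • (a • x) := by rw [smul_smul, inv_mul_cancel₀ ha, one_smul]
    rw [h2, h1, smul_neg, smul_smul, neg_smul]
  subst ha
  rw [zero_smul, zero_add] at hab
  rcases smul_eq_zero.1 hab with hb | hb
  · exact ⟨rfl, hb⟩
  · exact absurd hb hy

end Lib

/-! ## A. Boxes -/

/-- **Row IBF** (basic facts on `I`-boxes; the pair version is the landed row PBF,
`Pool/Agent/Helper10_NTW/PBF.lean`).

Proof.  `w_m ∈ closure C` (`PES.cl`), `f = ∑ w = f_I + f_{Iᶜ} ∈ C` (`Finset.sum_add_sum_compl`).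
(1) `v ∈ L`: absorb: `M > 0`, `M f - v ∈ C`, so `(M f_I - v) + M f_{Iᶜ} ∈ closure C`; divide by `M`:
`f_I - v/M ∈ L` (`mem`), so `box` gives `f_I - v/M ∈ closure C`.  `f_I ∈ L`, `f_I ∈ closure C` (`cl_sum`).
(2) FCS (4) with (1).
(3) `A ≥ 1`, `A ≥ |r_m|` for all `m`.  Adding `(A - r_m) w_m`: `v + A f_{Iᶜ} ∈ closure C`; divide by `A`, `box`.
By (1) `M > 0` with `M f_I - v ∈ closure C`; adding: `M f_I + ∑_{m∉I} r_m w_m ∈ closure C`; NNG: `r_m ≥ 0`.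
(4) `r_i w_i ∈ L`; `box` by (3).
(5) `v = ∑_{i∈I} a_i w_i` (`Submodule.mem_span_image_finset_iff_exists_fun` or similar), and
`v + f_{Iᶜ} ∈ closure C`: NNG: `a_i ≥ 0`, so `v ∈ closure C`.
(6) LIN: `w` restricted to `I` is independent (`finrank_span_eq_card` for `fun i : I => w i`). -/
def IbfStmt : Prop :=
  ∀ (n : ℕ) (C : Set (V n)), PCone C → ∀ (K : ℕ) (w : Fin K → V n), PES C w →
    (∀ (I : Finset (Fin K)) (L : Submodule ℝ (V n)), IB C w I L →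
      Unt C L (fS w I) ∧ L ≤ BI C w I ∧
      (∀ v ∈ L, ∀ r : Fin K → ℝ, v + ∑ m ∈ Iᶜ, r m • w m ∈ closure C →
        v ∈ closure C ∧ ∀ m, m ∉ I → 0 ≤ r m) ∧
      ∀ r : Fin K → ℝ, (∀ m, 0 < r m) → IB C (fun m => r m • w m) I L) ∧
    ∀ I : Finset (Fin K), IB C w I (Submodule.span ℝ (w '' (I : Set (Fin K)))) ∧
      Module.finrank ℝ (Submodule.span ℝ (w '' (I : Set (Fin K)))) = I.card

/-- **Row IBI** (rescaling and the group; the pair versions are the landed rows FSR and PAC,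
`Pool/Agent/Helper83_NTW/FSR.lean`, `Pool/Agent/Helper23_NTW/PAC.lean`).

Proof.  (1) `f_I ∈ closure C`, `f' = ∑_{i∈I} r_i w_i`; `0 < ε ≤ r_i ≤ A` for all `i`: `f' - ε f_I`,
`A f_I - f' ∈ closure C`, so `f' ∈ Face C f_I` (constant `min ε (1/A)`); FCS (3), (5).
(2) `G = s • act g` is linear and bijective, `G x ∈ closure C ↔ x ∈ closure C` (`CC.sact_cl_iff`);
`fS (G w) I = G (fS w I)`.  `Face C (G x) = G '' Face C x`, `span` commutes with linear maps, and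
`span (Face C (s • y)) = span (Face C y)` by (1) or by FCS (5).
(3) `mem`: `G w_i = act g (s w_i)`.  `box`: `v = act g v'`, `v' ∈ L`; `v + G f_{Iᶜ} = G (s⁻¹ v' + f_{Iᶜ})`. -/
def IbiStmt : Prop :=
  ∀ (n : ℕ) (C : Set (V n)) (Γ : Subgroup (GL (Fin n) ℝ)), CC C Γ → ∀ (K : ℕ) (w : Fin K → V n),
    (∀ i, w i ∈ closure C) →
    (∀ r : Fin K → ℝ, (∀ i, 0 < r i) → ∀ I, BI C (fun i => r i • w i) I = BI C w I) ∧
    (∀ g ∈ Γ, ∀ s : ℝ, 0 < s → ∀ I, BI C (fun i => s • act g (w i)) I = img g (BI C w I)) ∧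
    ∀ g ∈ Γ, ∀ s : ℝ, 0 < s → ∀ (I : Finset (Fin K)) (L : Submodule ℝ (V n)), IB C w I L →
      IB C (fun i => s • act g (w i)) I (img g L)

/-- **Row IBL** (limits of `I`-boxes; as the landed row PBL, `Pool/Agent/Helper49_NTW/PBL.lean`).

Proof.  `w_i ∈ L'` for `i ∈ I`: second half of `LimS`.  Let `v ∈ L'`, `v + f_{Iᶜ}(w) ∈ closure C`;
`v = lim v_m`, `v_m ∈ L_m`.  Let `ε > 0`: `v + f_{Iᶜ}(w) + ε ∑ w ∈ C`, so for large `m`
`v_m + f_{Iᶜ}(x_m) + ε ∑ x_m ∈ C`, that is `(v_m + ε f_I(x_m)) + (1 + ε) f_{Iᶜ}(x_m) ∈ closure C`; divide by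
`1 + ε`, `box`: `v_m + ε f_I(x_m) ∈ closure C`.  `m → ∞`, then `ε → 0`. -/
def IblStmt : Prop :=
  ∀ (n : ℕ) (C : Set (V n)), PCone C → ∀ (K : ℕ) (x : ℕ → Fin K → V n) (w : Fin K → V n)
    (I : Finset (Fin K)) (L : ℕ → Submodule ℝ (V n)) (L' : Submodule ℝ (V n)),
    (∀ m, PES C (x m)) → PES C w → (∀ l, Tendsto (fun m => x m l) atTop (𝓝 (w l))) →
    (∀ m, IB C (x m) I (L m)) → LimS L L' → IB C w I L'

/-- **Row IZF** (zoom at a face of the simplex: the open face becomes a box; adapt the landed row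
ZFF, `Pool/Agent/Helper27_NTW/ZFF.lean`, in particular its lemma `unit_absorb`).

Proof.  `N_m = m + 1`, `r_m i = N_m` for `i ∈ I`, `1` otherwise, `y_m = r_m w ∈ FF` (`scl`);
`∑ y_m = N_m f_I + R`, `R = f_{Iᶜ}`.  `cpt`: `G_m ∑ y_{φ m} → p ∈ C`, `G_m = s_m act g_m`, `g_m ∈ Γ₀ ≤ Γ`.
`G_m y_{φ m} ∈ FF` (`inv`, `scl`); LPS (`K ≥ 2`): on a subsequence `G_m y_{φ m} → w'`, `∑ w' = p`; `cld`:
`FF w'`.  LSC: on a subsequence `img g_m F → L`, `F = BI C w I`, same dimension (IMG).  Write `N_m` for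
`N_{φ m}`.
(J, L0): `IB C y_m J L0` (IBF 4), `IB C (G_m y_m) J (img g_m L0)` (IBI 3); LSC on a further
subsequence and IBL; dimensions are preserved (IMG).
The set `I`: `w'_i ∈ L` for `i ∈ I` (`w_i ∈ F`: FCS (2), `f_I - w_i ∈ closure C`; second half of `LimS`).
Let `v ∈ L`, `v + f_{Iᶜ}(w') ∈ closure C`; `v = lim G_m v_m`, `v_m ∈ F`.  Let `ε > 0`.
`v + f_{Iᶜ}(w') + ε p ∈ C` and, for some `M > 0`, `M p - v ∈ C`; so for large `m`:
`u_m + (1 + ε) R ∈ closure C` with `u_m = v_m + ε N_m f_I ∈ F`, and `M (N_m f_I + R) - v_m ∈ closure C`.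
Claim: `u_m + ε N_m f_I ∈ closure C` for large `m`.  Otherwise it fails for infinitely many `m`; let
`z_m = u_m / (ε N_m) ∈ F`, `η_m = (1+ε)/(ε N_m) → 0`: `0 ≤ z_m + η_m R ≤ M' (f_I + R)` for a constant
`M'`, bounded (`normal`), so on a subsequence `z_m → z`, `z ∈ F` (closed), `z ∈ closure C`.  `f_I` is a
unit of `F` (FCS 1), so `f_I + z` is a unit (UNF 3), and `f_I + z_m = (f_I + z) + (z_m - z) ∈ closure C` for
large `m` (UOP): contradiction.  (For `I = ∅`, `F = ⊥`: included.)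
So `v_m + 2 ε N_m f_I ∈ closure C`; apply `G_m`, `m → ∞`: `v + 2 ε f_I(w') ∈ closure C`; `ε → 0`. -/
def IzfStmt : Prop :=
  ∀ (n : ℕ) (C : Set (V n)) (Γ Γ₀ : Subgroup (GL (Fin n) ℝ)) (K : ℕ), CC C Γ → 2 ≤ K →
    ∀ FF : (Fin K → V n) → Prop, FAM C Γ Γ₀ FF → ∀ w, FF w → ∀ I : Finset (Fin K),
    ∃ w' : Fin K → V n, FF w' ∧
      (∃ L : Submodule ℝ (V n), IB C w' I L ∧
        Module.finrank ℝ L = Module.finrank ℝ (BI C w I)) ∧
      ∀ (J : Finset (Fin K)) (L : Submodule ℝ (V n)), IB C w J L →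
        ∃ L' : Submodule ℝ (V n), IB C w' J L' ∧ Module.finrank ℝ L' = Module.finrank ℝ L

/-- **Row CMX** (choice of the dimensions; compare the landed row EXC,
`Pool/Agent/Helper47_NTW/EXC.lean`).

Proof.  For `c : Finset (Fin K) → ℕ` let `T_c w` be: `FF w` and for all `I` there is `L` with `IB C w I L` and
`c I ≤ finrank L`.  Let `S` be the set of all `N = ∑_I c I` with `c0 ≤ c` and `∃ w, T_c w`.  `S ≠ ∅` (`c0, w0`), and
`S` is bounded (`c I ≤ finrank L ≤ n`).  Take the maximal `N` with its `c` (`Nat.sSup_mem` or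
`Nat.findGreatest`); `T = T_c`.
Let `T w` and `I` be given, `d = finrank (BI C w I)`, `L` with `IB C w I L`, `c I ≤ finrank L`.
`L ≤ BI C w I` (IBF 2), so `c I ≤ d`.  If `d > c I`: IZF for `w, I` gives `w'` in `FF` with an `I`-box of dimension
`d` and `J`-boxes of dimension `≥ c J` for all `J`; with `c' = Function.update c I d`: `T_{c'} w'`, `c0 ≤ c'`,
`∑ c' > ∑ c`, contradiction.  So `d = c I`, `L = BI C w I` (`Submodule.eq_of_le_of_finrank_le`), and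
`IB C w I (BI C w I)`.
`FAM` for `T`: `sub`, `pes`, `cpt` from `FF`; `inv`: IBI (3) with `s = 1` and `finrank (img g L) = finrank L` (IMG 1);
`scl`: IBF (4); `cld`: `FF w`, and for every `I` LSC gives a subsequence with `L_{φ m} → L'`, equal
dimensions; IBL. -/
def CmxStmt : Prop :=
  ∀ (n : ℕ) (C : Set (V n)) (Γ Γ₀ : Subgroup (GL (Fin n) ℝ)) (K : ℕ), CC C Γ → 3 ≤ K →
    MaxCard C Γ K → ∀ FF : (Fin K → V n) → Prop, FAM C Γ Γ₀ FF →
    ∀ (w0 : Fin K → V n) (c0 : Finset (Fin K) → ℕ), FF w0 →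
    (∀ I, ∃ L : Submodule ℝ (V n), IB C w0 I L ∧ c0 I ≤ Module.finrank ℝ L) →
    ∃ (T : (Fin K → V n) → Prop) (c : Finset (Fin K) → ℕ), TB C Γ Γ₀ T c ∧
      (∀ w, T w → FF w) ∧ (∃ w, T w) ∧ ∀ I, c0 I ≤ c I

/-- **Row MNX** (minimal subfamilies, without Zorn).

Proof.  `X = Fin K → V n` is second countable: let `U_j` (`j ∈ ℕ`) be an enumeration of a countable
basis of open sets (`TopologicalSpace.exists_countable_basis`, `Set.Countable.exists_eq_range`).  For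
a family `T` let `A_j T w` be: `T w` and for all `g ∈ Γ₀` and all `r : Fin K → ℝ` with `0 < r i` the tuple
`fun i => r i • act g (w i)` is not in `U_j`.  `T_0` is given, `T_{j+1} = A_j T_j` if `∃ w, A_j T_j w`, and
`T_{j+1} = T_j` otherwise.  By induction all `T_j` are nonempty and `FAM`: for `A_j T`: `inv`: `r • act g (act h w)
= r • act (g h) w`; `scl`: the factors are multiplied; `cld`: if `x_m → w` and `r • act g w ∈ U_j`, then
`r • act g x_m ∈ U_j` for large `m` (`U_j` open, continuity); `sub`, `pes`, `cpt` are inherited.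
`T w := ∀ j, T_j w`.  `FAM C Γ Γ₀ T`: all fields are immediate (`cpt` from `T_0`).
Nonempty: `x_j` with `T_j x_j`; `cpt` for `T_0`: `G_m ∑ x_{φ m} → p ∈ C`; LPS (`K ≥ 2`): on a subsequence
`G_m x_{φ m} → w`, `∑ w = p ∈ C`.  For every `j`, `G_m x_{φ m}` is in `T_j` for `m ≥ j` (`φ m ≥ m`, the families
decrease, `inv`, `scl`), so `T_j w` by `cld` (shifted sequence).
Minimality: let `T'` be `FAM`, `T' ⊆ T`, nonempty, and suppose `T w`, `¬ T' w`.  `w` is not in the closure of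
`{z | T' z}` (otherwise a sequence in `T'` converges to `w`, `mem_closure_iff_seq_limit`, and `∑ w ∈ C`
(`PES.sum_mem`), so `T' w` by `cld`).  So there is `j` with `w ∈ U_j` and `U_j` disjoint from `T'`
(`TopologicalSpace.IsTopologicalBasis.mem_nhds_iff`).  For `z ∈ T'` all `r • act g z` are in `T'`
(`inv`, `scl`), so `A_j T_j z` (`T' ⊆ T ⊆ T_j`).  Hence `T_{j+1} = A_j T_j`, and `T w` gives `A_j T_j w`; `g = 1`,
`r = 1`: `w ∉ U_j`.  Contradiction. -/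
def MnxStmt : Prop :=
  ∀ (n : ℕ) (C : Set (V n)) (Γ Γ₀ : Subgroup (GL (Fin n) ℝ)) (K : ℕ), CC C Γ → 2 ≤ K →
    ∀ T0 : (Fin K → V n) → Prop, FAM C Γ Γ₀ T0 → (∃ w, T0 w) →
    ∃ T : (Fin K → V n) → Prop, FAM C Γ Γ₀ T ∧ Mnl C Γ Γ₀ T ∧ (∀ w, T w → T0 w) ∧ ∃ w, T w

/-!
**Row TBE** (`TbeStmt` in `StmtsM.lean`; uses CMX MNX).

Proof.  CMX gives `T1, c`; MNX for `T0 = T1` gives `T`.  `TB C Γ Γ₀ T c`: `FAM` from MNX, `cc`, `three`, `maxc` are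
given, `box` and `dim` from `TB` of `T1` for the members of `T ⊆ T1`.

**Row TBF** (`TbfStmt` in `StmtsM.lean`; uses IBF).

Proof.  `B_I = BI C w I`, `IB C w I B_I` (`TB.box`), `PES C w`, `f_I ∈ closure C`.
(1) IBF (1).  (2) FCS (2).  (3) IBF (3).
(5) `I ⊆ J`, `v ∈ B_I`: `±v ≤ M f_I ≤ M f_J` (unit, applied to `v` and `-v`), so `v ∈ B_J` (FCE).
(4) `≥` from (5).  `v ∈ B_I`, `v ∈ B_J`: `M > 0` with `M f_I ± v ∈ closure C` (1); `f_I = f_{I∩J} + f_{I∖J}`, so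
`(M f_{I∩J} ± v) + M f_{I∖J} ∈ closure C`, `M f_{I∩J} ± v ∈ B_J` (`w_i ∈ B_J` for `i ∈ J`), `I ∖ J ⊆ Jᶜ`: (3) for `J`
(`r = M` on `I ∖ J`, `0` elsewhere) gives `M f_{I∩J} ± v ∈ closure C`; FCE.
(6) `←`: `f_I - w_i ∈ closure C`, (2).  `→`: if `i ∉ I`: `M f_I - w_i ∈ closure C` contradicts NNG.
(7) EXV.
(8) `x ∈ B_{i}`, `f_{{i}} = w_i`: `0 ≤ M w_i + x ≤ 2 M w_i`; `Ext`: `M w_i + x = a w_i`.
(9) `w_i, w_j ∈ B_{ij}` are independent (LIN), `dim`.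
(10) `span {w_i, w_j} ≤ B_{ij}`, both of dimension `2` (`Submodule.eq_of_le_of_finrank_le`),
`Submodule.mem_span_pair`.
(11) `PB C w i j B_{ij}` (`rst w i j = fS w {i, j}ᶜ`).  If `3 ≤ c {i, j}`: BXT.  If `c {i, j} ≤ 2`: `x = a w_i + b w_j`,
`y = a' w_i + b' w_j` (10), all coefficients `≥ 0` (NNG).  `a + a' > 0` and `b + b' > 0` (otherwise `x, y` are
multiples of one vertex, not `Ind2`).  `x + y - ε f_{ij} ∈ closure C`, `ε > 0`; UNF (1), (2).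
(12) `f_∅ = 0`; `v ∈ B_∅`: `±v ∈ closure C` by (1), `v = 0`.
(13) `v` arbitrary: absorb for `v` and `-v`: `±v ≤ M f`; FCE.

**Row BIN** (`BinStmt` in `StmtsM.lean`; uses IBI TBF).

Proof.  (1), (2) IBI (1), (2) (`Γ₀ ≤ Γ`), `FAM.inv`, `FAM.scl` with the constant `s`.
(3) `f_I(w') ∈ B_I(w)`; TBF (1) for `w`: `f_I(w') ≤ M f_I(w)`.  `v ∈ B_I(w')`: `±v ≤ M' f_I(w') ≤ M' M f_I(w)`
(`M, M' > 0`), so `v ∈ B_I(w)` (FCE).  So `B_I(w') ≤ B_I(w)`, both have dimension `c I`.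
(4) `fS (Function.update w k x) I = fS w I` for `k ∉ I` (`Finset.sum_congr`, `Function.update_of_ne`).

**Row BIL** (`BilStmt` in `StmtsM.lean`; uses IBF IBL).

Proof.  (a) For every strictly monotone `ψ` there is a strictly monotone `θ` with
`LimS (fun m => BI C (x (ψ (θ m))) I) (BI C w I)`: LSC gives `θ` and the limit `L'`, `finrank L' = c I`
(`TB.dim`); IBL (`TB.box`): `IB C w I L'`; `L' ≤ BI C w I` (IBF 2), equal dimensions, so `L' = BI C w I`.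
(b) Second half of `LimS` for the full sequence: `φ`, `y_m ∈ BI C (x (φ m)) I`, `y_m → y`: (a) for `ψ = φ`, the
sequence `y ∘ θ` and the second half of the limit in (a).
(c) First half: let `v ∈ BI C w I`, `d_m = Metric.infDist v (BI C (x m) I)`.  `d_m → 0`: otherwise `d_m ≥ ε > 0`
on a subsequence `ψ`, and the first half of the limit in (a) contradicts this.  Choose `z_m` in the subspace
with `dist v z_m < d_m + 1/(m+1)` (`Metric.infDist_lt_iff`). -/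

/-! ## B. Projections and moves -/

/-- **Row ZLX** (existence of the zoom limit along `1_S`).

Proof.  `r_m i = exp (θ_m)` for `i ∈ S`, `1` otherwise; `y_m = r_m w ∈ T` (`scl`).  `cpt`: `G_m ∑ y_{φ m} → p ∈ C`,
`G_m = s_m act g_m`.  LPS: on a further subsequence `G_m y_{φ m} → W`, `∑ W = p ∈ C`; `cld` (BIN 2): `T W`.
Write `p_m = ∑ y_{φ m} = e^{θ} f_S + f_{Sᶜ}`, `θ = θ_{φ m}`; for large `m` `θ ≥ 0`, so `p_m - f ∈ closure C`.
`P`: for `v ∈ V` absorb: `±v ≤ M f ≤ M p_m` for large `m`, so `±G_m v ≤ M G_m p_m`, bounded (`normal`).  Pass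
to a subsequence with `G_m e_j → a_j` for all basis vectors `e_j = Pi.single j 1`
(`tendsto_subseq_of_bounded` for the tuple); `P` = the linear map with `P e_j = a_j`.  `limP`:
`G_m y_m = ∑_j (y_m)_j G_m e_j`.
`Q`: `D = BI C w S`, `b_1, …, b_d` a basis of `D` (`Module.finBasis`), `H_m = e^{θ} G_m`.  `±b_i ≤ M f_S`
(TBF 1), so `±H_m b_i ≤ M H_m f_S = M ∑_{i∈S} G_m y_{φ m, i}`, bounded; pass to a subsequence `H_m b_i → b'_i`;
`Q0 : D → V` linear with `Q0 b_i = b'_i`, `Q` = an extension of `Q0` to `V` (`LinearMap.exists_extend`).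
`limQ`: `y0 ∈ D` (closed), the coordinates with respect to `b` are continuous on `D`.
`injP`: `y ∈ B_{Sᶜ}`, `P y ∈ closure C`, `ε > 0`: `G_m (y + ε p_m) → P y + ε p ∈ C`, so for large `m`
`y + ε f_{Sᶜ} + ε e^{θ} f_S ∈ closure C`; TBF (3) for `Sᶜ`: `y + ε f_{Sᶜ} ∈ closure C`; `ε → 0`.
`injQ`: `y ∈ B_S`, `Q y ∈ closure C`: `H_m y + ε G_m p_m → Q y + ε p ∈ C`; divide by `e^{θ}`:
`y + ε f_S + ε e^{-θ} f_{Sᶜ} ∈ closure C`; TBF (3) for `S`: `y + ε f_S ∈ closure C`; `ε → 0`.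
`P w_i = W_i` for `i ∉ S` (`limP`, constant sequence), `Q w_i = W_i` for `i ∈ S`.
`mapP`: `J ⊆ Sᶜ`, `z ∈ B_J`: `±z ≤ M f_J`, apply `G_m`, `m → ∞`: `±P z ≤ M P f_J = M fS W J`, so `P z ∈ BI C W J`
(FCE); `P` is injective on `B_J ≤ B_{Sᶜ}` (`injP` for `y` and `-y`), and both dimensions are `c J`.
`mapQ`: the same with `H_m`, `Q`, `injQ`. -/
def ZlxStmt : Prop :=
  ∀ (n : ℕ) (C : Set (V n)) (Γ Γ₀ : Subgroup (GL (Fin n) ℝ)) (K : ℕ) (T : (Fin K → V n) → Prop)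
    (c : Finset (Fin K) → ℕ), TB C Γ Γ₀ T c → ∀ w : Fin K → V n, T w →
    ∀ (S : Finset (Fin K)) (θ : ℕ → ℝ), Tendsto θ atTop atTop →
    ∃ (φ : ℕ → ℕ) (g : ℕ → GL (Fin n) ℝ) (s : ℕ → ℝ) (W : Fin K → V n) (P Q : V n →ₗ[ℝ] V n),
      StrictMono φ ∧ (∀ m, g m ∈ Γ₀) ∧ (∀ m, 0 < s m) ∧ ZL C T w S (fun m => θ (φ m)) g s W P Q

/-!
**Row PJE** (`PjeStmt` in `StmtsM.lean`; uses TBF ZLX).

Proof.  ZLX with `S = Iᶜ`, `θ_m = m`; so `Sᶜ = I`.  `P w_i = W_i` for `i ∈ I`; `P w_i = 0` for `i ∉ I`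
(`G_m w_i = e^{-θ} G_m (e^{θ} w_i) → 0`), so `P f = P f_I = fS W I`, `P f_{Iᶜ} = 0`.  `P x ∈ closure C` for
`x ∈ closure C` (limit).  `P x ∈ BI C W I` for all `x`: absorb `±x ≤ M f`, so `±P x ≤ M P f = M fS W I`, FCE.
`mapP` for `J = I`: `P` maps `B_I(w)` onto `BI C W I`, and it is injective on `B_I(w)` (`injP`).  So for every `x`
there is exactly one `p x ∈ B_I(w)` with `P (p x) = P x`; `p` is linear (inverse of the linear
equivalence `B_I(w) ≃ BI C W I` composed with `P`; `LinearEquiv.ofBijective`).  `mem`, `idB`: clear.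
`pos`: `x ∈ closure C`: `P (p x) = P x ∈ closure C`, `injP`.
`ker`: `p x = 0 ↔ P x = 0`.  `←` of `ker`: `Sml` with `x0 = f`, `τ > 0`: `±x ≤ κ f_{Iᶜ} + τ f`; apply `P`:
`±P x ≤ τ fS W I`; `τ → 0`, salient: `P x = 0`.  `→`: `P x = 0`, `x0 ∈ C`, `τ > 0`; `δ > 0` with `τ x0 - δ f ∈ closure C`
(absorb).  `G_m (δ p_m ± x) → δ p ∈ C` (`p = ∑ W`), so for some large `m` (both signs, and `θ ≥ 0`)
`±x ≤ δ p_m = δ f_I + δ e^{θ} f_{Iᶜ} ≤ δ f + δ e^{θ} f_{Iᶜ} ≤ τ x0 + κ f_{Iᶜ}`, `κ = δ e^{θ} > 0`.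

**Row PJF** (`PjfStmt` in `StmtsM.lean`; uses TBF BIN).

Proof.  (1) `m ∉ I`: `Sml C f_{Iᶜ} w_m` with `κ = 1` (`f_{Iᶜ} - w_m ∈ closure C`, `τ x0 ∈ closure C`).
(2) `x ∈ C`: `p x ∈ closure C`; `z ∈ B_I`: absorb `M x - z ∈ C`, apply `p`: `M p x - z ∈ closure C`.
(3) `x - p x ∈ ker p = ker p'` (both are `Sml C f_{Iᶜ}`), so `p' x = p' (p x) = p x`.
(4) `BI` is the same (BIN 1); `f' = fS (r w) Iᶜ`: `ε f_{Iᶜ} ≤ f' ≤ A f_{Iᶜ}`, so `Sml` is the same (change `κ`).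
(5) `p' = A ∘ p ∘ A⁻¹`, `A = mulVecLin g`.  `BI` is mapped by BIN (2).  `ker`: `p' x = 0 ↔ p (act g⁻¹ x) = 0`, and
`κ f_{Iᶜ} + τ act g⁻¹ x0 ± act g⁻¹ x ∈ closure C ↔ κ act g f_{Iᶜ} + τ x0 ± x ∈ closure C`
(`act g⁻¹ x0 ∈ C`); `κ act g f_{Iᶜ} = (κ/s) (s act g f_{Iᶜ})`.
(6) `f_{Iᶜ}` is the same, so `ker p' = ker p`.  `x - p' x ∈ ker p' = ker p`: first half.  `y ∈ BI C w' I`:
`y - p y ∈ ker p = ker p'`, so `p' (p y) = p' y = y`.
(7) `x - p x ∈ Sml C f_{Iᶜ}`, and `f_{Jᶜ} - f_{Iᶜ} ∈ closure C`, so it is `Sml C f_{Jᶜ}`: `q (x - p x) = 0`.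

**Row PJC** (`PjcStmt` in `StmtsM.lean`; uses TBF BIL PJF).

Proof.  `tendsto_of_subseq_tendsto`: given a subsequence, find a further one.  `f = ∑ w ∈ C`.  For `v ∈ V`:
absorb `M f ± v ∈ C`, so for large `m` `M ∑ x_m ± v ∈ closure C`; apply `pm`: `±pm v ≤ M fS (x m) I`
(`pm (∑ x_m) = fS (x m) I` by PJF (1) and `idB`), bounded (`normal`).  On a further subsequence
`pm e_j → a_j` for all basis vectors `e_j`; `P` linear with `P e_j = a_j`; `pm z_m → P z0` if `z_m → z0`.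
`P y' = y'` for `y' ∈ BI C w I`: BIL: `z_m ∈ BI C (x m) I`, `z_m → y'`, `pm z_m = z_m`.
`P u = 0` if `p u = 0`: `τ > 0`; `Sml` with `x0 = f`: `κ f_{Iᶜ}(w) + τ f ± u ∈ closure C`, so
`κ f_{Iᶜ}(w) + 2 τ f ± u ∈ C`, so for large `m` `κ f_{Iᶜ}(x_m) + 2 τ ∑ x_m ± u ∈ closure C`; apply `pm`, `m → ∞`:
`2 τ fS w I ± P u ∈ closure C`; `τ → 0`, salient.
So `pm (ym) → P y = P (p y) + P (y - p y) = p y`. -/

/-- **Row MVB** (basic facts on moves).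

Proof.  `w' = Function.update w k x`, `T w'`, so `PES C w'`, `x = w'_k ∈ closure C`, `x ≠ 0` (LIN), `Ext C x`
(TBF 7), `x ∈ LamC C Γ`.
(2) `w'_m = w_m` for `m ∉ {k, i}`; `p'` for `w'`, `{k, i}` (PJE).  PJF (6): `p' (p y) = y` for
`y ∈ BI C w' {k, i}`; so `p' (p x) = x` and `p' w_i = w_i` (`w_i = w'_i = p w_i`).  `p x ∈ closure C` (`pos`);
`p x ≠ 0`.  If `p x` is a unit of `BI C w {k, i}`: `M p x - w_i ∈ closure C`; apply `p'`: `M x - w_i ∈ closure C`, a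
combination of `w'` with a negative coefficient: contradicts NNG.  If `p x = a w_i`: apply `p'`: `x = a w'_i`,
contradicts LIN.
(3) `c {k, i} ≤ 2`: `p x = a w_k + b w_i` (TBF 10), `a, b ≥ 0` (NNG); not both positive (otherwise
`p x - ε (w_k + w_i) ∈ closure C` and `p x` is a unit, UNF); `a = 0` is excluded by (2); so `b = 0`,
`p x = a w_k`, `a ≠ 0`.
(4) `J ∋ k`, `i ∉ J`, `y ∈ BI C w J`, `y ∈ closure C`: `M f_J - y ∈ closure C`; apply `p`: `p f_J = w_k` (PJF 1, `idB`), so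
`M w_k - p y ∈ closure C`, `p y ∈ closure C`; `Ext C (w k)`: `p y = a w_k`.  (This part does not use the move.) -/
def MvbStmt : Prop :=
  ∀ (n : ℕ) (C : Set (V n)) (Γ Γ₀ : Subgroup (GL (Fin n) ℝ)) (K : ℕ) (T : (Fin K → V n) → Prop)
    (c : Finset (Fin K) → ℕ), TB C Γ Γ₀ T c → ∀ w : Fin K → V n, T w → ∀ k : Fin K,
    (∀ x : V n, Mv T w k x →
      x ∈ closure C ∧ x ≠ 0 ∧ Ext C x ∧ x ∈ LamC C Γ ∧
      ∀ i, i ≠ k → ∀ p : V n →ₗ[ℝ] V n, PrI C w {k, i} p →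
        p x ∈ closure C ∧ p x ≠ 0 ∧ ¬ Unt C (BI C w {k, i}) (p x) ∧ (∀ a : ℝ, p x ≠ a • w i) ∧
        (c {k, i} ≤ 2 → ∃ a : ℝ, p x = a • w k)) ∧
    ∀ J : Finset (Fin K), k ∈ J → ∀ i, i ∉ J → ∀ p : V n →ₗ[ℝ] V n, PrI C w {k, i} p →
      ∀ y ∈ BI C w J, y ∈ closure C → ∃ a : ℝ, p y = a • w k

/-!
**Row SXN** (`SxnStmt` in `StmtsM.lean`; uses TBF PJE PJF MVB).

Proof.  (2) a helper `i` has `p x ≠ a w_k` for all `a`, so `3 ≤ c {k, i}` by MVB (`p` is unique, PJF 3, or use the `p`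
of `Sx`).
(3) `J ∋ k`.  `←`: `x ∈ B_J`, `i` a helper, `i ∉ J`: MVB (last part): `p x = a w_k`, contradiction.
`→`: all helpers are in `J`.  Let `i ∉ J`, so `i ≠ k`; `i` is not a helper, so `p x = a w_k` for `p` from PJE
(`{k, i}`).  `z = (∑_{m≠i} w_m) + x`: `p z = (1 + a) w_k` (PJF 1, `k ≠ i`).  If `z ∈ C`, `p z` is a unit of
`BI C w {k, i}` (PJF 2), so `M (1 + a) w_k - w_i ∈ closure C`: contradicts NNG.  So `z ∉ C`, and FMX (`l = i`, `x ∈ LamC`)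
gives `M (∑_{m≠i} w_m) - x ∈ closure C`: `x ∈ BI C w (univ.erase i)` (TBF 2).  Intersection: by induction on
`A ⊆ Jᶜ`, `x ∈ BI C w Aᶜ` (`A = ∅`: TBF 13; `Aᶜ ∩ univ.erase i = (insert i A)ᶜ`, TBF 4); `A = Jᶜ`.
(1) otherwise (3) with `J = {k}`: `x ∈ B_{k}`, `x = a w_k` (TBF 8), contradicts `Mv.ne`. -/

/-- **Row ZPR** (projections along the zoom).

Proof.  (1) `i ∉ S`: `lim` with the factor `1` and `limP` for the constant sequence `w_i`: `P w_i = W_i`.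
`i ∈ S`: `G_m w_i = e^{-θ_m} G_m (e^{θ_m} w_i) → 0`, so `P w_i = 0`; `limQ` for the constant sequence (`w_i ∈ B_S`):
`Q w_i = W_i`.  (2) `G_m x ∈ closure C`, closed.
(3) absorb `±x ≤ M f`; `±P x ≤ M P f = M fS W Sᶜ`; FCE.
(4) `u = x - q x`, `q u = 0`, so `Sml C f_{Jᶜ}(w) u`.  Claim `Sml C (fS W Jᶜ) (P u)`: `x0 ∈ C`, `τ > 0`; `δ > 0` with
`τ x0 - δ ∑ W ∈ closure C`; `Sml` at the point `∑ w ∈ C` with `δ`: `±u ≤ κ f_{Jᶜ}(w) + δ ∑ w`; apply `P`: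
`±P u ≤ κ ∑_{i∈Jᶜ∖S} W_i + δ fS W Sᶜ ≤ κ fS W Jᶜ + δ ∑ W ≤ κ fS W Jᶜ + τ x0`.  So `qW (P u) = 0`.
`P (q x) ∈ BI C W J` (`mapP`), so `qW (P (q x)) = P (q x)`.  Add.
(5) `x ∈ B_S`: `q x ∈ B_J ≤ B_S`, `u = x - q x ∈ B_S`, `Sml C f_{Jᶜ}(w) u`.  For `δ > 0`: `±u ≤ κ f_{Jᶜ} + δ f`,
`f_{Jᶜ} = f_{S∖J} + f_{Sᶜ}`, `f = f_S + f_{Sᶜ}`: `(κ f_{S∖J} + δ f_S ± u) + (κ + δ) f_{Sᶜ} ∈ closure C`, the bracket is in
`B_S`: TBF (3): `κ f_{S∖J} + δ f_S ± u ∈ closure C`.  Apply `Q` (2): `±Q u ≤ κ fS W (S∖J) + δ fS W S ≤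
κ fS W Jᶜ + δ ∑ W`.  End as in (4), with `mapQ`. -/
def ZprStmt : Prop :=
  ∀ (n : ℕ) (C : Set (V n)) (Γ Γ₀ : Subgroup (GL (Fin n) ℝ)) (K : ℕ) (T : (Fin K → V n) → Prop)
    (c : Finset (Fin K) → ℕ), TB C Γ Γ₀ T c → ∀ w : Fin K → V n, T w →
    ∀ (S : Finset (Fin K)) (θ : ℕ → ℝ) (g : ℕ → GL (Fin n) ℝ) (s : ℕ → ℝ) (W : Fin K → V n)
      (P Q : V n →ₗ[ℝ] V n), Tendsto θ atTop atTop → (∀ m, g m ∈ Γ₀) → (∀ m, 0 < s m) →
      ZL C T w S θ g s W P Q →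
    ((∀ i, i ∉ S → P (w i) = W i) ∧ (∀ i ∈ S, P (w i) = 0) ∧ ∀ i ∈ S, Q (w i) = W i) ∧
    ((∀ x ∈ closure C, P x ∈ closure C) ∧ ∀ x ∈ BI C w S, x ∈ closure C → Q x ∈ closure C) ∧
    (∀ x, P x ∈ BI C W Sᶜ) ∧
    (∀ J, J ⊆ Sᶜ → ∀ q qW : V n →ₗ[ℝ] V n, PrI C w J q → PrI C W J qW →
      ∀ x, qW (P x) = P (q x)) ∧
    ∀ J, J ⊆ S → ∀ q qW : V n →ₗ[ℝ] V n, PrI C w J q → PrI C W J qW →
      ∀ x ∈ BI C w S, qW (Q x) = Q (q x)

/-- **Row ZUP** (replaced vertices along the zoom).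

Proof.  (1) `w' = Function.update w k x`, `r_m i = exp (θ_m)` for `i ∈ S`, `1` otherwise; `z_m = G_m (r_m w') ∈ T`
(`scl`, BIN 2).  `z_m i → W_i` for `i ≠ k` (`lim`), `z_m k = G_m x → P x` (`limP`, `k ∉ S`).  `cld`: it remains that
`A = P x + ∑_{i≠k} W_i ∈ C`.  `∑ w' ∈ C`; absorb: `M > 0`, `M (x + ∑_{i≠k} w_i) - w_k ∈ closure C`; for `θ_m ≥ 0`
(all large `m`) also `M (x + ∑_{i≠k} r_m i w_i) - w_k ∈ closure C`; apply `G_m`, `m → ∞`:
`M A - W_k ∈ closure C`.  `P x ∈ closure C` (limit of `G_m x`; `x ∈ closure C` by `PES.cl` for `w'`).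
`(M + 1) A = (M A - W_k) + W_k + A = (M A - W_k) + P x + ∑ W ∈ C`, so `A ∈ C`.
(2) `k ∈ S`, `x ∈ B_S(w)`: `z_m k = e^{θ_m} G_m x → Q x` (`limQ`).  `A = Q x + ∑_{i≠k} W_i`.
`M (x + ∑_{i≠k} w_i) - w_k = (M (x + f_{S∖k}) - w_k) + M f_{Sᶜ} ∈ closure C`, the bracket is in `B_S`: TBF (3): it is in
`closure C`.  Apply `Q` (ZPR 2, 1): `M (Q x + ∑_{i∈S∖k} W_i) - W_k ∈ closure C`, so `M A - W_k ∈ closure C`; end as
in (1) (`Q x ∈ closure C` by ZPR 2). -/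
def ZupStmt : Prop :=
  ∀ (n : ℕ) (C : Set (V n)) (Γ Γ₀ : Subgroup (GL (Fin n) ℝ)) (K : ℕ) (T : (Fin K → V n) → Prop)
    (c : Finset (Fin K) → ℕ), TB C Γ Γ₀ T c → ∀ w : Fin K → V n, T w →
    ∀ (S : Finset (Fin K)) (θ : ℕ → ℝ) (g : ℕ → GL (Fin n) ℝ) (s : ℕ → ℝ) (W : Fin K → V n)
      (P Q : V n →ₗ[ℝ] V n), Tendsto θ atTop atTop → (∀ m, g m ∈ Γ₀) → (∀ m, 0 < s m) →
      ZL C T w S θ g s W P Q →
    (∀ k, k ∉ S → ∀ x, T (Function.update w k x) → T (Function.update W k (P x))) ∧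
    ∀ k ∈ S, ∀ x ∈ BI C w S, T (Function.update w k x) → T (Function.update W k (Q x))

/-- **Row ZMA** (survival of moves under `P`; the helpers in `S` disappear).

Proof.  `T (Function.update W k (P x))`: ZUP (1).  Let `i ∉ S`, `i ≠ k`, `J = {k, i} ⊆ Sᶜ`, `q` for `w`, `qW` for `W`
(PJE; unique, PJF 3, so `Sx` may be tested with `q`, `qW`).  `qW (P x) = P (q x)` (ZPR 4), `W_k = P w_k`.  If
`q x = a w_k` then `qW (P x) = a W_k`; if `P (q x) = a W_k` then `P` kills `q x - a w_k ∈ B_J ≤ B_{Sᶜ}`, so it is `0`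
(`injP` for both signs, salient).  So `Sx C W k (P x) i ↔ Sx C w k x i`.
Let `i ∈ S`: `P x ∈ BI C W Sᶜ` (ZPR 3), `P x ∈ closure C` (ZPR 2, MVB), `k ∈ Sᶜ`, `i ∉ Sᶜ`: MVB (last part, for `W`,
`J = Sᶜ`): `qW (P x) = a W_k`; so `¬ Sx C W k (P x) i`.
`Mv.ne`: let `i ∉ S` be the helper; if `P x = a W_k` then `qW (P x) = a W_k` (`W_k ∈ BI C W J`), contradiction. -/
def ZmaStmt : Prop :=
  ∀ (n : ℕ) (C : Set (V n)) (Γ Γ₀ : Subgroup (GL (Fin n) ℝ)) (K : ℕ) (T : (Fin K → V n) → Prop)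
    (c : Finset (Fin K) → ℕ), TB C Γ Γ₀ T c → ∀ w : Fin K → V n, T w →
    ∀ (S : Finset (Fin K)) (θ : ℕ → ℝ) (g : ℕ → GL (Fin n) ℝ) (s : ℕ → ℝ) (W : Fin K → V n)
      (P Q : V n →ₗ[ℝ] V n), Tendsto θ atTop atTop → (∀ m, g m ∈ Γ₀) → (∀ m, 0 < s m) →
      ZL C T w S θ g s W P Q →
    ∀ (k : Fin K) (x : V n), Mv T w k x → k ∉ S → (∃ i, i ∉ S ∧ Sx C w k x i) →
      Mv T W k (P x) ∧ ∀ i, Sx C W k (P x) i ↔ (Sx C w k x i ∧ i ∉ S)

/-- **Row ZMB** (survival of moves under `Q`).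

Proof.  `x ∈ B_S(w)` (SXN (3), `J = S`).  `T (Function.update W k (Q x))`: ZUP (2).  `i ∈ S`, `i ≠ k`: `J = {k, i} ⊆ S`,
`qW (Q x) = Q (q x)` (ZPR 5), `W_k = Q w_k` (ZPR 1); `q x - a w_k ∈ B_J ≤ B_S`, `injQ`: as in ZMA
`Sx C W k (Q x) i ↔ Sx C w k x i`.  `i ∉ S`: `Sx C w k x i` is false; `Q x ∈ BI C W S` (`mapQ`, `J = S`),
`Q x ∈ closure C` (ZPR 2), MVB (last part, `J = S`): `qW (Q x) = a W_k`, so `¬ Sx C W k (Q x) i`.
`Mv.ne`: there is a helper (SXN 1); as in ZMA. -/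
def ZmbStmt : Prop :=
  ∀ (n : ℕ) (C : Set (V n)) (Γ Γ₀ : Subgroup (GL (Fin n) ℝ)) (K : ℕ) (T : (Fin K → V n) → Prop)
    (c : Finset (Fin K) → ℕ), TB C Γ Γ₀ T c → ∀ w : Fin K → V n, T w →
    ∀ (S : Finset (Fin K)) (θ : ℕ → ℝ) (g : ℕ → GL (Fin n) ℝ) (s : ℕ → ℝ) (W : Fin K → V n)
      (P Q : V n →ₗ[ℝ] V n), Tendsto θ atTop atTop → (∀ m, g m ∈ Γ₀) → (∀ m, 0 < s m) →
      ZL C T w S θ g s W P Q →
    ∀ (k : Fin K) (x : V n), Mv T w k x → k ∈ S → (∀ i, Sx C w k x i → i ∈ S) →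
      Mv T W k (Q x) ∧ ∀ i, Sx C W k (Q x) i ↔ Sx C w k x i

/-!
**Row ZMI** (`ZmiStmt` in `StmtsM.lean`; uses ZLX SXN ZMA ZMB).

Proof.  ZLX.  First clause: there is a helper (SXN 1), it is not in `S`; ZMA, and `Sx C w k x i` implies
`i ∉ S`.  Second clause: ZMB.  (`θ (φ m) → ∞` since `φ` is strictly monotone.) -/

/-- **Row NPR** (the N-principle).

Proof.  `p = pr_{km}` at `w`, `p'` at `w'` (PJE for `{k, m}`); `w'_l = w_l` outside `{k, m}`, so `p' (p y) = y` for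
`y ∈ BI C w' {k, m}` (PJF 6).  `q = p w'_k`: `q ∈ BI C w {k, m}`, `q ∈ closure C`, `p' q = w'_k ≠ 0`, so `q ≠ 0`.  `q` is
not a unit of `BI C w {k, m}`: otherwise `M q - p w'_m ∈ closure C`, apply `p'`: `M w'_k - w'_m ∈ closure C`, contradicts
NNG for `w'`.
`z = (∑_{l≠m} w'_l) + q`: `p z = q + q = 2 q` (`p w'_l = p w_l = 0` for `l ≠ k, m`); `z ∈ C` would make `2 q` and `q`
units (PJF 2, UNF 1).  So `z ∉ C`.  `q ∈ LamC`: `M (w_k + w_m) - q ∈ closure C`; `w_k + w_m ∈ Hull`, `∉ C` (`bd`, `K ≥ 3`),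
`≠ 0`, so `∈ LamC` (CLO, constant sequence), FLM.  FMX (`w'`, `l = m`, `z = q`): `M (∑_{l≠m} w'_l) - q ∈ closure C`.
`q ∈ BI C w {k, m} ≤ BI C w {k, m, j} = BI C w' {k, m, j}` (TBF 5).  So `M (w'_k + w'_j) - q ∈ BI C w' {k, m, j}` and
`(M (w'_k + w'_j) - q) + M ∑_{l≠k,m,j} w'_l ∈ closure C`; TBF (3) for `w'`: `M (w'_k + w'_j) - q ∈ closure C`.  So
`q ∈ BI C w' {k, j}` (TBF 2) and `q = a w'_k + b w'_j` (TBF 10), `a, b ≥ 0` (NNG for `w'`).  Apply `p`: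
`q = p q = a q + b p w_j = a q` (`w'_j = w_j`), so `a = 1`.  If `b > 0`: `q - b w_j = w'_k ∈ closure C`, so
`w_j ≤ (M/b) (w_k + w_m)`, contradicts NNG for `w`.  So `b = 0` and `w'_k = q ∈ BI C w {k, m}`. -/
def NprStmt : Prop :=
  ∀ (n : ℕ) (C : Set (V n)) (Γ Γ₀ : Subgroup (GL (Fin n) ℝ)) (K : ℕ) (T : (Fin K → V n) → Prop)
    (c : Finset (Fin K) → ℕ), TB C Γ Γ₀ T c → ∀ w w' : Fin K → V n, T w → T w' →
    ∀ k m j : Fin K, k ≠ m → m ≠ j → k ≠ j → c {k, j} ≤ 2 →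
    (∀ l, l ≠ k → l ≠ m → w' l = w l) → BI C w {k, m, j} = BI C w' {k, m, j} →
    w' k ∈ BI C w {k, m}

/-- **Row CHT** (chain exclusion inside a triple box).

Proof.  `w1 = Function.update w k x`, `w2 = Function.update w m y`, `I = {k, m, j}`; `B_I(w1) = B_I(w) = B_I(w2)` by
BIN (3) (their vertices in `I` are in `B_I(w)`, TBF 6).  NPR for `(w, w1)`: `x ∈ B_{km}(w)`.  NPR for
`(w2, w1)` (both equal `w` outside `{k, m}`): `x ∈ B_{km}(w2)`.  `w_k = w2_k ∈ B_{km}(w2)`, `w_k ∈ B_{km}(w)`.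
`Ind2 x (w_k)` (`Mv.ne`, `w_k ≠ 0`), both in `closure C`: `x + w_k` is a unit of `B_{km}(w)` and of `B_{km}(w2)`
(TBF 11), so both are the span of `Face C (x + w_k)` (FCS 5): `B_{km}(w) = B_{km}(w2) ∋ w2_m = y` (TBF 6).  So
`M (w_k + w_m) - y ∈ closure C`; with the `p` of `Sx C w m y j` (`{m, j}`): `p w_k = 0` (PJF 1), `p w_m = w_m`, so
`M w_m - p y ∈ closure C`, `p y ∈ closure C`, `Ext C (w m)`: `p y = a w_m`, contradiction. -/
def ChtStmt : Prop :=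
  ∀ (n : ℕ) (C : Set (V n)) (Γ Γ₀ : Subgroup (GL (Fin n) ℝ)) (K : ℕ) (T : (Fin K → V n) → Prop)
    (c : Finset (Fin K) → ℕ), TB C Γ Γ₀ T c → ∀ w : Fin K → V n, T w →
    ∀ (k m j : Fin K) (x y : V n), k ≠ m → m ≠ j → k ≠ j → c {k, j} ≤ 2 → Mv T w k x →
      Mv T w m y → x ∈ BI C w {k, m, j} → y ∈ BI C w {k, m, j} → Sx C w m y j → False

/-!
**Row CHE** (`CheStmt` in `StmtsM.lean`; uses ZLX ZPR ZMA CHT).

Proof.  ZLX with `S = {k, m, j}ᶜ`, `θ_m = m`.  ZMA for `(k, x)` (helper `m ∉ S`): `Mv T W k (P x)`; for `(m, y)` (helper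
`j ∉ S`): `Mv T W m (P y)`, `Sx C W m (P y) j`.  ZPR (3): `P x, P y ∈ BI C W Sᶜ = BI C W {k, m, j}`.  CHT at `W`. -/

end Pool.Agent.NBT
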