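import Pool.Agent.NBT.StmtsM

/-!
# NBT squad (MP_e54c4c_gt), THEOREM BT: SECTIONS C AND D (flows, rigid sets, the digraph of arrows)

The rows FLW LOC PUR RGA RGB SCC POT LVL have their statements in `StmtsM.lean` (`FlwStmt`, ...); their
complete proofs are below in the section comments.  Landed facts that may be cited without hypotheses:
see the header of `Pool/Agent/NTW/StmtsA.lean`; in addition `Pool.Agent.NTS.H27.nng : NngStmt`,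
`Pool.Agent.NTS.H56.exv : NngStmt → ExvStmt`.  `P_t = e^t f_S + f_{Sᶜ}`, `f_I = fS w I`.
TB facts: `h.pes`, `h.inv`, `h.scl`, `h.cld`, `h.cpt`, `h.cc`, `h.box`, `h.dim`.
-/

set_option autoImplicit false

open Matrix Filter Topology

namespace Pool.Agent.NBT

open Pool.Agent.PFS Pool.Agent.PFJ

/-! ## C0. Tools -/

/-- **Row SCQ** (sequential compactness of a family modulo the group).

Proof.  `h.cpt`: `φ, g, s, p`.  `X_m = (s_m act g_m (x_{φ m, i}))_i ∈ T` (`h.inv`, `h.scl` with the constant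
`s_m`; `CC.act_smul`), `∑ X_m = s_m act g_m (∑ x_{φ m}) → p` (`CC.act_sum`).  `IsPES` by `h.pes`; LPS
(`Pool.Agent.PFS.H37.lpsF`; `Fintype.card (Fin K) = K ≥ 2`): on a subsequence `X_m → w`, `∑ w = p ∈ C`;
`h.cld`: `T w`. -/
def ScqStmt : Prop :=
  ∀ (n : ℕ) (C : Set (V n)) (Γ Γ₀ : Subgroup (GL (Fin n) ℝ)) (K : ℕ) (T : (Fin K → V n) → Prop),
    CC C Γ → 3 ≤ K → FAM C Γ Γ₀ T → ∀ x : ℕ → Fin K → V n, (∀ m, T (x m)) →
    ∃ (φ : ℕ → ℕ) (g : ℕ → GL (Fin n) ℝ) (s : ℕ → ℝ) (w : Fin K → V n), StrictMono φ ∧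
      (∀ m, g m ∈ Γ₀) ∧ (∀ m, 0 < s m) ∧ T w ∧
      ∀ i, Tendsto (fun m => s m • act (g m) (x (φ m) i)) atTop (𝓝 (w i))

/-- **Row NRF** (facts on nearness).

Proof.  (1) `∑ w ∈ closure C`.  (2) by `ε (∑ w) - (z_i - w_i)` and `ε (∑ w) + (z_i - w_i)` in the limit:
they converge to `ε ∑ w ∈ C`, open; finitely many `i`; (the two sequences may both depend on `m`).
(3) `act g` and `s •` preserve `closure C` (`CC.sact_cl_iff`), `CC.act_sum`, `CC.act_sub`.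
(4) sum over `i`: `K ε ∑ w + ∑ z - ∑ w ∈ closure C`, so `∑ z - (1 - K ε) ∑ w ∈ closure C`.
(5) `PCone.normal`: `0 ≤ ε ∑ w + (z_i - w_i) ≤ 2 ε ∑ w`. -/
def NrfStmt : Prop :=
  ∀ (n : ℕ) (C : Set (V n)) (Γ : Subgroup (GL (Fin n) ℝ)) (K : ℕ), CC C Γ →
    (∀ (ε δ : ℝ) (w z : Fin K → V n), ε ≤ δ → ∑ i, w i ∈ closure C → Nr C ε w z → Nr C δ w z) ∧
    (∀ (ε : ℝ) (x y : ℕ → Fin K → V n) (w : Fin K → V n), 0 < ε → ∑ i, w i ∈ C →
      (∀ i, Tendsto (fun m => x m i) atTop (𝓝 (w i))) →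
      (∀ i, Tendsto (fun m => y m i) atTop (𝓝 (w i))) → ∀ᶠ m in atTop, Nr C ε (x m) (y m)) ∧
    (∀ (ε : ℝ) (w z : Fin K → V n), ∀ g ∈ Γ, ∀ s : ℝ, 0 < s → Nr C ε w z →
      Nr C ε (fun i => s • act g (w i)) (fun i => s • act g (z i))) ∧
    (∀ (ε : ℝ) (w z : Fin K → V n), Nr C ε w z →
      ∑ i, z i - (1 - (K : ℝ) * ε) • ∑ i, w i ∈ closure C) ∧
    (∀ (ε : ℕ → ℝ) (x y : ℕ → Fin K → V n) (w : Fin K → V n), Tendsto ε atTop (𝓝 0) →
      (∀ m, Nr C (ε m) (x m) (y m)) → (∀ i, Tendsto (fun m => x m i) atTop (𝓝 (w i))) →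
      ∀ i, Tendsto (fun m => y m i) atTop (𝓝 (w i)))

/-- **Row NRS** (a set which is not rigid fails to be rigid at every point of a minimal family).

Proof.  `T' w := T w ∧ ∃ z, (∀ m, T (z m)) ∧ z m → w ∧ ∀ m, BI C (z m) S ≠ BI C w S`.  Claim: `FAM C Γ Γ₀ T'`
and `T'` is not empty; then `Mnl` gives `T' w`.
`sub`, `pes`: clear.  `inv`: `z'_m = act g (z_m)` (`h.inv`), BIN (2) with `s = 1` (`one_smul`) and IMG (6)
(`img g` is injective), continuity of `act g`.  `scl`: BIN (1).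
`cld`: `x_m → w`, `T' (x_m)`, `∑ w ∈ C`: `T w` by `h.cld`.  For every `m` there is `z^m` with `T (z^m)`,
`BI C (z^m) S ≠ BI C (x_m) S` and `‖z^m_i - x_{m,i}‖ ≤ 1/(m+1)` for all `i`.  Both `x_m` and `z^m` tend to `w`
and at least one of `BI C (x_m) S`, `BI C (z^m) S` is different from `BI C w S`: take that one.
`cpt`: `h.cpt`.  Nonempty: `¬ Rig` with `ε = 1/(m+1)`: `w_m, z_m ∈ T`, `Nr C (1/(m+1)) w_m z_m`, different
`BI`.  SCQ for `w_m`: `φ, g, s, w'`: `x_m = s_m act g_m (w_{φ m}) → w'`, `T w'`; `y_m = s_m act g_m (z_{φ m})`: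
`Nr C (1/(φ m + 1)) (x_m) (y_m)` (NRF 3), so `y_m → w'` (NRF 5); `x_m, y_m ∈ T` (BIN 2); `BI C (x_m) S ≠
BI C (y_m) S` (BIN 2, IMG 6); again at least one of them is different from `BI C w' S`. -/
def NrsStmt : Prop :=
  ∀ (n : ℕ) (C : Set (V n)) (Γ Γ₀ : Subgroup (GL (Fin n) ℝ)) (K : ℕ) (T : (Fin K → V n) → Prop)
    (c : Finset (Fin K) → ℕ), TB C Γ Γ₀ T c → Mnl C Γ Γ₀ T → ∀ S : Finset (Fin K),
    ¬ Rig C T S → ∀ w : Fin K → V n, T w → ∃ z : ℕ → Fin K → V n, (∀ m, T (z m)) ∧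
      (∀ i, Tendsto (fun m => z m i) atTop (𝓝 (w i))) ∧ ∀ m, BI C (z m) S ≠ BI C w S

/-- **Row ZLF** (facts on the limit of a zoom).

Proof.  (1) `i ∉ S`: `limP` for the constant sequence `w_i` and `lim`.  (2) `i ∈ S`: `w_i ∈ BI C w S`
(TBF 6), `limQ` for the constant sequence and `lim` (`smul_smul`, `CC.act_smul`).  (3) `i ∈ S`:
`s_m act g_m w_i = e^{-θ_m} (s_m act g_m (e^{θ_m} w_i)) → 0 • W_i`.  (4) `P` is a limit of maps preserving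
`closure C` (`CC.sact_cl_iff`).  (5) the same for `Q` on `BI C w S`.
(6) `u` small relative to `f_J`, `J ⊆ S`: `x ∈ C`, for all `τ > 0` there is `κ` with
`κ f_J + τ x ∓ u ∈ closure C`; apply `P` (4), `P f_J = 0` (3): `τ P x ∓ P u ∈ closure C`; `τ → 0`: `∓ P u` in
`closure C`, salient.  (7) `P` is injective on `BI C w Sᶜ`, `Q` on `BI C w S`: `injP` for `y` and `-y`,
salient. -/
def ZlfStmt : Prop :=
  ∀ (n : ℕ) (C : Set (V n)) (Γ Γ₀ : Subgroup (GL (Fin n) ℝ)) (K : ℕ) (T : (Fin K → V n) → Prop)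
    (c : Finset (Fin K) → ℕ), TB C Γ Γ₀ T c → ∀ w : Fin K → V n, T w →
    ∀ (S : Finset (Fin K)) (θ : ℕ → ℝ) (g : ℕ → GL (Fin n) ℝ) (s : ℕ → ℝ) (W : Fin K → V n)
      (P Q : V n →ₗ[ℝ] V n), Tendsto θ atTop atTop → (∀ m, g m ∈ Γ₀) → (∀ m, 0 < s m) →
      ZL C T w S θ g s W P Q →
      (∀ i, i ∉ S → P (w i) = W i) ∧ (∀ i ∈ S, Q (w i) = W i) ∧ (∀ i ∈ S, P (w i) = 0) ∧
      (∀ x ∈ closure C, P x ∈ closure C) ∧
      (∀ x ∈ closure C, x ∈ BI C w S → Q x ∈ closure C) ∧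
      (∀ J, J ⊆ S → ∀ u, Pool.Agent.PCO.Sml C (fS w J) u → P u = 0) ∧
      (∀ x ∈ BI C w Sᶜ, P x = 0 → x = 0) ∧ (∀ x ∈ BI C w S, Q x = 0 → x = 0)

/-- **Row ZLT** (limits of other simplices along the zoom of `w` are in the family).

Proof.  `X_m = (s_m act g_m ((if i ∈ S then e^{θ_m} else 1) w'_i))_i ∈ T` (`h.scl`, `h.inv`, `h.scl`), and
`X_m → W'`; by `h.cld` it is enough that `∑ W' ∈ C`.  `∑ w' ∈ C`: absorb: `M₁ > 0`,
`M₁ ∑ w' - ∑ w ∈ C`; `M₂ f_S(w') - f_S(w) ∈ closure C`, `M₂ > 0` may be assumed (`f_S(w') ∈ closure C`);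
`M = max M₁ M₂`.  For `θ_m ≥ 0`: `M (∑ w' + (e^θ - 1) f_S(w')) - (∑ w + (e^θ - 1) f_S(w)) ∈ closure C`, and
`∑ w + (e^θ - 1) f_S(w) = ∑_i (if i ∈ S then e^θ else 1) w_i`.  Apply `s_m act g_m`, limit:
`M ∑ W' - ∑ W ∈ closure C`, `∑ W ∈ C` (`T W`), so `∑ W' ∈ C`. -/
def ZltStmt : Prop :=
  ∀ (n : ℕ) (C : Set (V n)) (Γ Γ₀ : Subgroup (GL (Fin n) ℝ)) (K : ℕ) (T : (Fin K → V n) → Prop)
    (c : Finset (Fin K) → ℕ), TB C Γ Γ₀ T c → ∀ w : Fin K → V n, T w →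
    ∀ (S : Finset (Fin K)) (θ : ℕ → ℝ) (g : ℕ → GL (Fin n) ℝ) (s : ℕ → ℝ) (W : Fin K → V n)
      (P Q : V n →ₗ[ℝ] V n), Tendsto θ atTop atTop → (∀ m, g m ∈ Γ₀) → (∀ m, 0 < s m) →
      ZL C T w S θ g s W P Q → ∀ w' W' : Fin K → V n, T w' →
      (∃ M : ℝ, M • fS w' S - fS w S ∈ closure C) →
      (∀ i, Tendsto (fun m => s m • act (g m)
        ((if i ∈ S then Real.exp (θ m) else 1) • w' i)) atTop (𝓝 (W' i))) → T W'

/-- **Row SPB** (the vertices of the second member of a pair).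

Proof.  `i ∈ S`, `x = W'_i ∈ LamC` (`h.pes`).  PJE: `p` for `W`, `S`; `p x = W_i` (hypothesis), `p W_l = W_l` for
`l ∈ S` (`idB`, TBF 6), `p W_l = 0` for `l ∉ S` (PJF 1).  Let `j ∈ S`, `j ≠ i`.
Claim: `∑_{l≠j} W_l + x ∉ C`.  Otherwise `p (..) = ∑_{l ∈ S - j} W_l + W_i` is a unit of `BI C W S` (PJF 2);
`W_j ∈ BI C W S`: `M > 0`, `M (∑_{l ∈ S - j} W_l + W_i) - W_j ∈ closure C`, a combination of `W` with the
coefficient `-1` at `j`: contradicts `nng`.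
FMX (`Pool.Agent.PFJ.H10.fmx`) with `l = j`, `z = x`: `M ∑_{m≠j} W_m - x ∈ closure C`, so
`x ∈ BI C W (univ.erase j)` (TBF 2).  TBF 4 and induction over the finite set `S.erase i`
(`Finset.induction_on`, start: `BI C W univ = ⊤`): `x ∈ BI C W (univ \ S.erase i)`, and
`univ \ S.erase i = insert i Sᶜ`. -/
def SpbStmt : Prop :=
  ∀ (n : ℕ) (C : Set (V n)) (Γ Γ₀ : Subgroup (GL (Fin n) ℝ)) (K : ℕ) (T : (Fin K → V n) → Prop)
    (c : Finset (Fin K) → ℕ), TB C Γ Γ₀ T c → ∀ (S : Finset (Fin K)) (W W' : Fin K → V n),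
    T W → T W' → (∀ i ∈ S, ∀ p : V n →ₗ[ℝ] V n, PrI C W S p → p (W' i) = W i) →
    ∀ i ∈ S, W' i ∈ BI C W (insert i Sᶜ)

/-! ## C1. The flow -/

/-- **Row FLA** (the times of the first failure).

Proof.  `u_{m,i} = z_{m,i} - p z_{m,i}`; `p` is continuous, `p w_i = w_i` (`idB`, TBF 6), so `u_{m,i} → 0` for
`i ∈ S`.  `P_t = e^t f_S + f_{Sᶜ} ∈ C`, `P_{t'} - P_t ∈ closure C` for `t ≤ t'` (the vertices are in
`closure C`).  `D m t` (`t : ℕ`): for all `i ∈ S` `δ P_t - e^t u_{m,i}, δ P_t + e^t u_{m,i} ∈ closure C`.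
(a) For fixed `t` `D m t` holds for all large `m` (`δ P_t ∈ C`, open).
(b) For every `m` there is `t` with `¬ D m t`: otherwise, dividing by `e^t`, `t → ∞`:
`δ f_S ∓ u_{m,i} ∈ closure C`, so `δ f_S + u_{m,i} ∈ BI C w S` (TBF 2: it is in `closure C` and
`(2 δ) f_S - (δ f_S + u) ∈ closure C`), so `u_{m,i} ∈ BI C w S` (`f_S` is in it), `z_{m,i} ∈ BI C w S` for all
`i ∈ S`; BIN (3): `BI C (z_m) S = BI C w S`, excluded.
Let `t_m` be the smallest `t` with `¬ D m t` (`Nat.find`).  `t_m → ∞` by (a).  Restrict to the `m` with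
`t_m ≥ 1`: `D m (t_m - 1)`, so `δ P_{t_m - 1} ∓ e^{t_m - 1} u ∈ closure C`; multiply by `e`, use
`e < 3` and monotonicity: `3 δ P_{t_m} ∓ e^{t_m} u_{m,i} ∈ closure C`.  The failing index `i0` is constant
on a subsequence (finitely many). -/
def FlaStmt : Prop :=
  ∀ (n : ℕ) (C : Set (V n)) (Γ Γ₀ : Subgroup (GL (Fin n) ℝ)) (K : ℕ) (T : (Fin K → V n) → Prop)
    (c : Finset (Fin K) → ℕ), TB C Γ Γ₀ T c → ∀ (S : Finset (Fin K)) (w : Fin K → V n)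
    (p : V n →ₗ[ℝ] V n), T w → PrI C w S p → ∀ z : ℕ → Fin K → V n, (∀ m, T (z m)) →
    (∀ i, Tendsto (fun m => z m i) atTop (𝓝 (w i))) → (∀ m, BI C (z m) S ≠ BI C w S) →
    ∀ δ : ℝ, 0 < δ → ∃ (φ : ℕ → ℕ) (t : ℕ → ℝ) (i0 : Fin K), StrictMono φ ∧
      Tendsto t atTop atTop ∧ i0 ∈ S ∧
      (∀ m, ∀ i ∈ S,
        (3 * δ) • (Real.exp (t m) • fS w S + fS w Sᶜ) -
          Real.exp (t m) • (z (φ m) i - p (z (φ m) i)) ∈ closure C ∧
        (3 * δ) • (Real.exp (t m) • fS w S + fS w Sᶜ) +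
          Real.exp (t m) • (z (φ m) i - p (z (φ m) i)) ∈ closure C) ∧
      ∀ m, ¬ (δ • (Real.exp (t m) • fS w S + fS w Sᶜ) -
          Real.exp (t m) • (z (φ m) i0 - p (z (φ m) i0)) ∈ closure C ∧
        δ • (Real.exp (t m) • fS w S + fS w Sᶜ) +
          Real.exp (t m) • (z (φ m) i0 - p (z (φ m) i0)) ∈ closure C)

/-! **Row FLW** (`FlwStmt`), uses TBF BIN PJE PJF PJC ZMI NRF NRS ZLF SPB FLA.

Proof.  `δ' > 0` with `3 δ' ≤ δ` and `3 K δ' ≤ 1/2`.  NRS: `z_m → w`.  PJE: `p` for `w`, `S`.  FLA with `δ'`: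
`φ0, t, i0`; rename `z := z ∘ φ0`.  ZMI with `θ = t`: `φ, g, s, W, P, Q`; write `z_m, t_m` for `z_{φ m}, t_{φ m}`.
`l ∉ S`: `s_m act g_m z_{m,l} → P w_l = W_l` (`limP`, ZLF 1).
`i ∈ S`: `s_m act g_m (e^{t_m} p z_{m,i}) → Q w_i = W_i` (`limQ`: `p z_{m,i} ∈ BI C w S`, `→ p w_i = w_i`; ZLF 2).
`v_{m,i} = s_m act g_m (e^{t_m} u_{m,i})`, `u = z - p z`: `± v_{m,i} ≤ 3 δ' s_m act g_m (P_t)`, and
`s_m act g_m P_{t_m} → ∑ W` (`lim`, sum over `i`; `P_t = ∑ (if i ∈ S then e^t else 1) w_i`), so `v_{m,i}` is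
bounded (`normal` for `3 δ' G P_t + v ≤ 6 δ' G P_t`); on a common subsequence `v_{m,i} → ℓ_i` (`i ∈ S`),
`3 δ' ∑ W ∓ ℓ_i ∈ closure C`.  `ℓ_{i0} ≠ 0`: otherwise `δ' G P_t ∓ v_{m,i0} → δ' ∑ W ∈ C`, so both are in
`C` for large `m`, contradicting FLA.  `W'_i = W_i + ℓ_i` (`i ∈ S`), `W'_l = W_l` (`l ∉ S`).
The simplices `X_m = (s_m act g_m ((if i ∈ S then e^{t_m} else 1) z_{m,i}))_i ∈ T` tend to `W'`; `Nr C (3 δ') W W'`
holds, so (NRF 4) `∑ W' - (1 - 3 K δ') ∑ W ∈ closure C`, `∑ W' ∈ C`; `h.cld`: `T W'`.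
`SPr`: `out` clear.  `prj`: let `p_W` be `PrI C W S`.  PJF (4), (5): for the simplex
`Y_m = (s_m act g_m ((if ..) w_i))_i` (`T`, `→ W`) there is `p_m` with `PrI C (Y_m) S p_m` and
`p_m (act g_m x) = act g_m (p x)`; `p_m v_{m,i} = s_m act g_m (e^t p u_{m,i}) = 0` (`p u = p z - p (p z) = 0`).  PJC:
`p_W ℓ_i = lim p_m v_{m,i} = 0`; `p_W W'_i = p_W W_i + 0 = W_i` (`idB`).
`bnd`: SPB.  `Nr C δ W W'` (NRF 1).  `W'_{i0} ∉ BI C W S`: otherwise `W'_{i0} = p_W W'_{i0} = W_{i0}`,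
`ℓ_{i0} = 0`.  Survival: ZMI with `y = P x` or `y = Q x`.

**Row LOC** (`LocStmt`), uses TBF PJE PJF ZMI SXN ZLF ZLT SPB.

Proof.  `I' = insert i Sᶜ`, `I'ᶜ = S.erase i`.  ZMI for `W`, `I'`, `θ_m = m`: `φ, g, s, U, P, Q`.
`W'_i ∈ BI C W I'` (`bnd`), `y := Q W'_i`.  Limits of `s_m act g_m ((if l ∈ I' then e^{θ} else 1) W'_l)`:
`l ∈ Sᶜ` (`W'_l = W_l`): `U_l` (`lim`).  `l = i`: `y` (`limQ`, constant sequence).  `l ∈ S`, `l ≠ i`:
`→ P W'_l = P W_l + P (W'_l - W_l)` (`limP`), `P W_l = U_l` (ZLF 1, `l ∉ I'`), and `W'_l - W_l` is small relative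
to `fS W Sᶜ` (`PrI.ker` for `p_W` (PJE): `p_W (W'_l - W_l) = W_l - W_l = 0` by `prj` and `idB`), `Sᶜ ⊆ I'`, so
`P (W'_l - W_l) = 0` (ZLF 6).  So the limit is `Function.update U i y`.
ZLT (for `w = W`, `S := I'`, `w' = W'`): needs `M` with `M fS W' I' - fS W I' ∈ closure C`: `(W', W)` satisfies
the hypothesis of SPB: for `p'` with `PrI C W' S p'`: `W_l = p_W W'_l`, `W'_l ∈ BI C W' S` (TBF 6), so
`p' W_l = p' (p_W W'_l) = W'_l` (PJF 6, last part; `out`).  SPB: `W_i ∈ BI C W' I'`, so (TBF 1, unit)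
`W_i ≤ M fS W' I'`; and `fS W I' = W_i + fS W Sᶜ`, `fS W Sᶜ = fS W' Sᶜ ≤ fS W' I'`.  So
`T (Function.update U i y)`.
`Mv.ne`: if `y = c U_i`, then `Q (W'_i - c W_i) = 0` (ZLF 2), `W'_i = c W_i` (ZLF 8; `W_i ∈ BI C W I'`), so
`W'_i ∈ BI C W S`, excluded.
`J ∋ i`, `W'_i ∈ BI C W J`: `W'_i ∈ BI C W (J ∩ I')` (TBF 4), so `y ∈ BI C U (J ∩ I') ≤ BI C U J` (`mapQ`,
TBF 5); SXN (3): all helpers are in `J`.  With `J = I'` (and `Sx` implies `r ≠ i`): `r ∉ S`.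
Survival: ZMI (second item, `S := I'`), `y' = Q x`.

**Row PUR** (`PurStmt`), uses TBF PJE ZMI SXN ZLF ZLT.

Proof.  `S = {k, j}ᶜ`, ZMI with `θ_m = m`: `W, P, Q`; `y = P x`.  Limits of the zoomed `Function.update w k x`:
`l ∈ S`: `W_l` (`lim`); `l = j`: `P w_j = W_j`; `l = k`: `P x`.  `fS (update w k x) S = fS w S` (`k ∉ S`), so ZLT
gives `T (Function.update W k y)`.  Let `p` be `PrI C w {k, j}` (PJE; it is the one of `Sx` by PJF 3, so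
`p x ≠ c w_k` for all `c`).  `x - p x` has `p`-value `0`, so it is small relative to `fS w S` (`PrI.ker`),
`P (x - p x) = 0` (ZLF 6), `y = P (p x) ∈ BI C W {k, j}` (`mapP`, `{k, j} = Sᶜ`).  `y = c W_k = c P w_k`
would give `p x = c w_k` (ZLF 7).  So `Mv T W k y`.  SXN: the helpers are in `{k, j}` (3), so `r = j`
(`r ≠ k`), and there is one (1). -/

/-! ## C2. Rigid sets and arrows

**Row RGA** (`RgaStmt`), uses FLW LOC SXN.

Proof.  FLW with `δ = 1` for some `w ∈ T`: `W, W'`, `i ∈ S` with `W'_i ∉ BI C W S`.  LOC: `U, y`, `Mv T U i y`, all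
helpers outside `S`; SXN (1): there is a helper `r`.  `Arr C T i r`.

**Row RGB** (`RgbStmt`), uses TBF BIN ZMI SXN PUR NRF ZLF ZLT.

Proof.  PUR: `W`, `Mv T W k y`, the helpers are exactly `r`.  SXN (3) with `J = {k, r}`: `y ∈ BI C W {k, r}`.
`y ∉ BI C W S`: otherwise `y ∈ BI C W ({k, r} ∩ S) = BI C W {k}` (TBF 4; `k ∈ S`, `r ∉ S`), a multiple of `W_k`
(TBF 8), excluded.  ZMI for `W`, `S' = {k}ᶜ`, `θ_m = m`: `V, P, Q`.  `f = W_k + W_r` is a unit of `BI C W {k, r}`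
(TBF 1): `M f - y ∈ closure C`; `P W_r = 0` (ZLF 3), `P W_k = V_k` (ZLF 1): `M V_k - P y ∈ closure C`,
`P y ∈ closure C` (ZLF 4; `y ∈ closure C` as a vertex), so `P y = κ V_k` (TBF 7).  `κ > 0`: absorb for
`∑ (update W k y) ∈ C`: `M' (y + ∑_{l≠k} W_l) - W_k ∈ closure C`; apply `P`: `(M' κ - 1) V_k ∈ closure C`,
so `κ > 0` (`V_k ≠ 0`, salient).
`x_m = (s_m act g_m ((if l ∈ S' then e^{θ} else 1) W_l))_l → V`, and
`y_m = (s_m act g_m ((if l ∈ S' then e^{θ} else 1) (update W k (κ⁻¹ y))_l))_l → V` (`limP`).  Both are in `T`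
(`scl`, `inv`), `∑ V ∈ C`; NRF (2): for every `ε > 0` `Nr C ε (x_m) (y_m)` for large `m`.  BIN (1), (2):
`BI C (x_m) S = img g_m (BI C W S)`, `BI C (y_m) S = img g_m (BI C (update W k y) S)`; if they were equal,
then (IMG 6) `BI C W S = BI C (update W k y) S ∋ y` (TBF 6, `k ∈ S`), excluded.  So `¬ Rig`. -/

/-! ## D. Strong components -/

/-- a strong component `I` with at least three elements and the set `Up` of the indices which are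
reachable from it -/
structure Cmp {n K : ℕ} (C : Set (V n)) (T : (Fin K → V n) → Prop) (I Up : Finset (Fin K)) :
    Prop where
  dis : ∀ i ∈ I, i ∉ Up
  rigU : Rig C T Up
  rigI : Rig C T (I ∪ Up)
  one : ∀ m ∈ I, ¬ Rig C T (insert m Up)
  two : ∀ v ∈ I, ∀ j ∈ I, v ≠ j → ¬ Rig C T (insert v (insert j Up))
  arr : ∃ v ∈ I, ∃ j ∈ I, v ≠ j ∧ Arr C T v j

/-- **Row SCA** (the data of a large strong component).

Proof.  `R = Relation.ReflTransGen (Arr C T)`.  `I = {v | R i v ∧ R v i}`, `Up = {v | R i v ∧ ¬ R v i}` (classical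
`Finset.univ.filter`); `i, j, l ∈ I` (transitivity).  `dis` clear.  `rigU`: otherwise RGA: `k ∈ Up`,
`r ∉ Up`, `Arr k r`: `R i r`, so `R r i`, so `R k i`: contradiction.  `rigI`: `I ∪ Up = {v | R i v}`, closed
under arrows, RGA.  `Arr k k` is impossible (`Sx` contains `i ≠ k`).
`one`: `m ∈ I`, choose `m' ∈ {i, j, l}` with `m' ≠ m`, so `R m m'`, `R m' i`; first step
(`Relation.ReflTransGen.cases_head`): `Arr m r`, `R r m'`; `r ≠ m`, `R i r` (`R i m`), `R r i`: `r ∈ I`, so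
`r ∉ insert m Up`; RGB.
`two`: there is `m' ∈ {i, j, l}`, `m' ≠ v`, `m' ≠ j₀` (the two given indices `v, j₀`); `R v m'`.  Some arrow
of the path leaves `{v, j₀}`: for every `R a b` with `a ∈ {v, j₀}`, `b ∉ {v, j₀}` there are `k ∈ {v, j₀}`,
`r ∉ {v, j₀}`, `Arr k r`, `R r b` (induction on the path from the head).  `R i k`, `R i r`, `R r m'`,
`R m' i`: `r ∈ I`, `r ∉ insert v (insert j₀ Up)`; RGB.
`arr`: first step of `R i j`: `Arr i r`, `r ∈ I`, `r ≠ i`. -/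
def ScaStmt : Prop :=
  ∀ (n : ℕ) (C : Set (V n)) (Γ Γ₀ : Subgroup (GL (Fin n) ℝ)) (K : ℕ) (T : (Fin K → V n) → Prop)
    (c : Finset (Fin K) → ℕ), TB C Γ Γ₀ T c → Mnl C Γ Γ₀ T → (∃ w, T w) →
    ∀ i j l : Fin K, i ≠ j → j ≠ l → i ≠ l → Relation.ReflTransGen (Arr C T) i j →
      Relation.ReflTransGen (Arr C T) j l → Relation.ReflTransGen (Arr C T) l i →
      ∃ I Up : Finset (Fin K), Cmp C T I Up

/-- a configuration: the vertex `v` of `w` has a move with the only helper `j`, every vertex of `P`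
has a move with helpers in `I` -/
structure Sta {n K : ℕ} (C : Set (V n)) (T : (Fin K → V n) → Prop) (I P : Finset (Fin K))
    (v j : Fin K) (w : Fin K → V n) : Prop where
  tw : T w
  mv : ∃ x, Mv T w v x ∧ ∀ r, Sx C w v x r ↔ r = j
  frc : ∀ m ∈ P, ∃ y, Mv T w m y ∧ ∀ r, Sx C w m y r → r ∈ I

/-- **Row SCU** (the vertices in `Up` do not move).

Proof.  PJE: `p` with `PrI C W S p`.  `Nr C δ W W'`, `δ ≤ ε_U` (constant of `Rig C T Up`, NRF 1) gives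
`BI C W Up = BI C W' Up ∋ W'_u` (TBF 6), `Up ⊆ S`: `W'_u ∈ BI C W S` (TBF 5), `p W'_u = W'_u` (`idB`) and
`p W'_u = W_u` (`prj`, `u ∈ S`).  The second claim: `BI C W (I ∪ Up) = BI C W' (I ∪ Up) ∋ W'_m`. -/
def ScuStmt : Prop :=
  ∀ (n : ℕ) (C : Set (V n)) (Γ Γ₀ : Subgroup (GL (Fin n) ℝ)) (K : ℕ) (T : (Fin K → V n) → Prop)
    (c : Finset (Fin K) → ℕ), TB C Γ Γ₀ T c → ∀ I Up : Finset (Fin K), Cmp C T I Up →
    ∃ δ : ℝ, 0 < δ ∧ ∀ (S : Finset (Fin K)) (W W' : Fin K → V n), Up ⊆ S → SPr C T S W W' →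
      Nr C δ W W' → (∀ u ∈ Up, W' u = W u) ∧ ∀ m ∈ I, W' m ∈ BI C W (I ∪ Up)

/-- **Row SCB** (forcing one more source).

Proof.  SCU: `δ`.  `S = insert m Up`, `¬ Rig C T S` (`Cmp.one`).  FLW for `w`, `S`, `δ`: `W, W'`.  SCU:
`W'_u = W_u` for `u ∈ Up`, so the index of `S` with `W'_i ∉ BI C W S` is `i = m` (`W_u ∈ BI C W S`, TBF 6).
`W' = Function.update W m (W' m)` (`out` and SCU), so `T (Function.update W m (W' m))`; `W'_m ≠ c W_m` since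
`W'_m ∉ BI C W S ∋ W_m`.  So `Mv T W m (W' m)`.  Its helpers: `W'_m ∈ BI C W (insert m Sᶜ)` (`bnd`) and
`W'_m ∈ BI C W (I ∪ Up)` (SCU); SXN (3) for both sets: a helper `r` is in `insert m Sᶜ` and in `I ∪ Up`,
`r ≠ m`, so `r ∉ S`, `r ∉ Up`, `r ∈ I`.
Survival (FLW): `(v, x)`: `v ∉ S` (`v ∈ I`, `v ≠ m`, `dis`), the helper `j ∉ S` (`j ≠ m`).  `(m', y)`, `m' ∈ P`:
`m' ∉ S` (`m' ≠ m`); helpers `r ∈ I`: `r ∉ Up`; `r ≠ m`: otherwise `3 ≤ c {m', m}` (SXN 2), but `3 ≤ c {v, m'}`,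
`3 ≤ c {v, m}` and NoTri for `m', v, m` give `c {m', m} ≤ 2` (`Finset.pair_comm`). -/
def ScbStmt : Prop :=
  ∀ (n : ℕ) (C : Set (V n)) (Γ Γ₀ : Subgroup (GL (Fin n) ℝ)) (K : ℕ) (T : (Fin K → V n) → Prop)
    (c : Finset (Fin K) → ℕ), TB C Γ Γ₀ T c → Mnl C Γ Γ₀ T → NoTri c →
    ∀ I Up : Finset (Fin K), Cmp C T I Up → ∀ v ∈ I, ∀ j ∈ I, v ≠ j →
    ∀ (P : Finset (Fin K)) (w : Fin K → V n), Sta C T I P v j w →
    (∀ m ∈ P, m ∈ I ∧ m ≠ v ∧ m ≠ j ∧ 3 ≤ c {v, m}) →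
    ∀ m ∈ I, m ∉ P → m ≠ v → m ≠ j → 3 ≤ c {v, m} →
      ∃ W : Fin K → V n, Sta C T I (insert m P) v j W

/-- **Row SCE** (all neighbours of `v` are forced).

Proof.  `Cmp.arr`: `v, j`, `Arr v j`: `w, x`; PUR: `W, y` with the only helper `j`: `Sta C T I ∅ v j W`.
`P* = {m ∈ I | m ≠ v, m ≠ j, 3 ≤ c {v, m}}`; induction over the subsets of `P*` (`Finset.induction_on`)
with SCB.  `3 ≤ c {v, j}`: SXN (2). -/
def SceStmt : Prop :=
  ∀ (n : ℕ) (C : Set (V n)) (Γ Γ₀ : Subgroup (GL (Fin n) ℝ)) (K : ℕ) (T : (Fin K → V n) → Prop)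
    (c : Finset (Fin K) → ℕ), TB C Γ Γ₀ T c → Mnl C Γ Γ₀ T → NoTri c →
    ∀ I Up : Finset (Fin K), Cmp C T I Up → ∃ v ∈ I, ∃ j ∈ I, v ≠ j ∧ 3 ≤ c {v, j} ∧
      ∃ (P : Finset (Fin K)) (w : Fin K → V n), Sta C T I P v j w ∧
        (∀ m ∈ P, m ∈ I ∧ m ≠ v ∧ m ≠ j ∧ 3 ≤ c {v, m}) ∧
        ∀ m ∈ I, m ≠ v → m ≠ j → 3 ≤ c {v, m} → m ∈ P

/-! **Row SCC** (`SccStmt`), uses TBF SXN CHE FLW LOC SCA SCU SCE.

Proof.  SCA (a member of `T`: if `T` is empty there is no arrow, but `i ≠ j` and `R i j` give one):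
`I, Up`.  SCE: `v, j, P, w`.  SCU: `δ`.  `S = insert v (insert j Up)`, not rigid (`Cmp.two`).  FLW for `w`,
`S`, `δ`: `W, W'`.
For `m ∈ P` let `y_m` be the move of `w`.  `m ∉ S`.  Its helpers `r` are in `I`, so `r ∉ Up`; `r ≠ j`:
`3 ≤ c {m, r}` (SXN 2), but `c {m, j} ≤ 2` by NoTri for `m, v, j`.  `r ≠ v`: CHE with `k = m`, `m := v`, the
moves `y_m` and `x` (helper `j`) and `c {m, j} ≤ 2`.  So `r ∉ S`, and by FLW the moves survive at `W`: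
`y'_m` for `m ∈ P` with the same helpers, and `x'` for `v` with the only helper `j` (`v, j ∈ S`).
SCU: `W'_u = W_u` for `u ∈ Up`; so `W'_i ∉ BI C W S` for `i = v` or `i = j`.
(a) `W'_v ∉ BI C W S`.  LOC at `i = v`: `U, y`.  Helpers `r` of `y`: `r ∉ S`, and `r ∈ I ∪ Up` (`J = I ∪ Up`, SCU
second claim), so `r ∈ I`, `r ≠ v, j`, `3 ≤ c {v, r}` (SXN 2), `r ∈ P`.  Take such an `r` (SXN 1).  The move
`y'_r` at `W` (`r ∉ S`, helpers `∉ S`) survives at `U`: `y''`.  Let `r'` be a helper of `y''` (SXN 1): `r' ∉ S`, so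
`r' ≠ v`; `3 ≤ c {r, r'}` (SXN 2), NoTri for `v, r, r'`: `c {v, r'} ≤ 2`.  CHE at `U` with
`k = v, m = r, j = r'`.
(b) `W'_v ∈ BI C W S`.  Then `W'_v = W_v` (`prj`, `idB`, PJE), so `W' = Function.update W j (W' j)`, and
`W'_j ∉ BI C W S`: `Mv T W j (W' j)`.  `W'_j ∈ BI C W (insert j Sᶜ)` (`bnd`): a helper `r` (SXN 1) is in it
(SXN 3), `r ≠ j`, so `r ∉ S`, `r ≠ v`; `3 ≤ c {j, r}`, NoTri for `v, j, r`: `c {v, r} ≤ 2`.  CHE at `W` with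
`k = v, m = j, j := r`, the moves `x'` and `W' j`.

**Row POT** (`PotStmt`), uses nothing.

Proof.  `R = Relation.ReflTransGen D`; `N k = card {m | R k m}`, `μ k` = the smallest number (value in `ℕ`) of
an `m` with `R k m ∧ R m k`; `a k = μ k - (K + 1) N k` (real).  `0 ≤ μ k ≤ K - 1`.
(1) `D k r`: `{m | R r m} ⊆ {m | R k m}`.  If `R r k`, both `N` and `μ` agree.  Otherwise `k` is in the second
but not in the first set, `N r + 1 ≤ N k`, so `a r - a k ≥ (K + 1) - (K - 1) > 0`.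
(2) `k ≠ r`, `a k = a r`: `(K + 1) |N k - N r| = |μ k - μ r| ≤ K - 1`, so `N k = N r`, `μ k = μ r`; the common
`m` gives `R k r`, `R r k`.  From `R k r`, `k ≠ r`: there is `s ≠ k` with `D k s`, `R s r` (induction from the
head).  If `s ≠ r` then `k, s, r` are distinct with `R k s`, `R s r`, `R r k`, excluded.  So `D k r`.
(3) three different elements on one level would be mutually reachable by (2), excluded.

**Row LVL** (`LvlStmt`), uses TBF SXN RGA SCC POT NRF.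

Proof.  SCC gives the hypothesis of POT for `D = Arr C T`: `a`.  For every `s` `upp a s` is closed under
arrows, so `Rig C T (upp a s)` (RGA, contraposition).  For every rigid `S` choose `ε_S`, for the others
`ε_S = 1`; `ε = min_S ε_S > 0` (`Finset.univ` of the finite type `Finset (Fin K)`, `Finset.exists_min_image` or
`Finset.inf'`).  `rig`: NRF (1) (`∑ w ∈ C` for `w ∈ T`).  `two`: `Arr C T k r` by POT (2), and `Arr` contains a
helper: `3 ≤ c {k, r}` (SXN 2).  `lev3`: POT (3). -/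

end Pool.Agent.NBT
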