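import Pool.Agent.NBT.StmtsM

/-!
# NBT squad (MP_e54c4c_gt), section E: cocompactness along the flat (rows C1, C2, C3 of note 3551)

Rows: NRU NRD PGH FNG RTE COC.  `xs w t = ∑ e^{t_i} w_i`.  All rows of the squads PFS, PFJ are
theorems (`Pool.Agent.PFS.H37.lpsF : LpsStmt`, `Pool.Agent.PFS.H3.prp : PrpStmt`, `PCone.absorb`,
`PCone.normal`, `PCone.squeeze`, `CC.act_sum`, `CC.act_smul`, `CC.sact_cl_iff`, `IsPES.sum_mem`); see the
finished rows `Pool/Agent/Helper34_NTW/PIG.lean`, `Helper17_NTW/FNT.lean`, `Helper16_NTW/RET.lean`,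
`Helper75_NTW/STW.lean`, which are to be adapted.
-/

set_option autoImplicit false

open Matrix Filter Topology

namespace Pool.Agent.NBT

open Pool.Agent.PFS Pool.Agent.PFJ

/-- the tuple `(e^{t_i} w_i)` -/
noncomputable def ws {n K : ℕ} (w : Fin K → V n) (t : Fin K → ℝ) : Fin K → V n :=
  fun i => Real.exp (t i) • w i

/-- the point `∑ e^{t_i} w_i` of the flat of `w` -/
noncomputable def xs {n K : ℕ} (w : Fin K → V n) (t : Fin K → ℝ) : V n :=
  ∑ i, Real.exp (t i) • w i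

/-- **Row NRU** (near at one point: near in all directions `t a`, `t ≥ 0`).

Proof.  Let `i` be given, `U = upp a (a i)`.  `rig`: `BI C w U = BI C z U`; `z i ∈ BI C z U` (TBF 6 for
`z`, `i ∈ U`), so `z i ∈ BI C w U`.  `v = ε • fS w U ∓ (z i - w i) ∈ BI C w U` (`w i ∈ BI C w U`;
`fS w U ∈ BI C w U` as a sum) and `v + ∑_{m ∈ Uᶜ} ε • w m = ε • ∑ w ∓ (z i - w i) ∈ closure C` (`Nr`);
TBF (3) with `r = ε`: `v ∈ closure C`.  This is the second claim.
Third claim, `t ≥ 0`: for `m ∈ U` `a i ≤ a m`, so `e^{t a_m} ≥ e^{t a_i}`, and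
`ε ∑_m e^{t a_m} w_m ∓ e^{t a_i} (z_i - w_i) = e^{t a_i} v + ε ∑_m (e^{t a_m} - [m ∈ U] e^{t a_i}) w_m` is a
sum of elements of `closure C` (`w m ∈ closure C`: `IsPES`). -/
def NruStmt : Prop :=
  ∀ (n : ℕ) (C : Set (V n)) (Γ Γ₀ : Subgroup (GL (Fin n) ℝ)) (K : ℕ) (T : (Fin K → V n) → Prop)
    (c : Finset (Fin K) → ℕ), TB C Γ Γ₀ T c → ∀ (a : Fin K → ℝ) (ε : ℝ), Pot C T c a ε →
    ∀ w z : Fin K → V n, T w → T z → Nr C ε w z →
      (∀ i, z i ∈ BI C w (upp a (a i))) ∧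
      (∀ i, ε • fS w (upp a (a i)) - (z i - w i) ∈ closure C ∧
        ε • fS w (upp a (a i)) + (z i - w i) ∈ closure C) ∧
      ∀ t : ℝ, 0 ≤ t → Nr C ε (ws w (fun i => t * a i)) (ws z (fun i => t * a i))

/-- **Row NRD** (near at arbitrarily low positions: the levels agree).

Proof.  Let `i` be given, `U = upp a (a i)`.  For every `N : ℕ` there are `s_N ≥ N` and `σ_N ∈ [σ0, σ1]` as
in the hypothesis; `ws w (-(s_N a)), ws (σ_N z) (-(s_N a)) ∈ T` (`scl`).  NRU (2) for this pair: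
`ε ∑_{m ∈ U} e^{-s a_m} w_m ∓ e^{-s a_i} (σ z_i - w_i) ∈ closure C`; multiply by `e^{s a_i}`:
`ε ∑_{m ∈ U} e^{-s (a_m - a_i)} w_m ∓ (σ_N z_i - w_i) ∈ closure C`.  On a subsequence `σ_N → σ ∈ [σ0, σ1]`; for
`m ∈ U` either `a m = a i` (coefficient one) or `a m > a i` (coefficient tends to zero).  Limit, with
`L = lev a i` (`= {m ∈ U : a m = a i}`): `ε • fS w L ∓ (σ z_i - w_i) ∈ closure C`.
`y = ε • fS w L + (σ z_i - w_i) ∈ closure C` and `2 ε • fS w L - y ∈ closure C`, so TBF (2):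
`y ∈ BI C w L`, `σ z_i ∈ BI C w L` (`w_m ∈ BI C w L` for `m ∈ L`), `z_i ∈ BI C w L` (`σ ≥ σ0 > 0`). -/
def NrdStmt : Prop :=
  ∀ (n : ℕ) (C : Set (V n)) (Γ Γ₀ : Subgroup (GL (Fin n) ℝ)) (K : ℕ) (T : (Fin K → V n) → Prop)
    (c : Finset (Fin K) → ℕ), TB C Γ Γ₀ T c → ∀ (a : Fin K → ℝ) (ε : ℝ), Pot C T c a ε →
    ∀ w z : Fin K → V n, T w → T z → ∀ σ0 σ1 : ℝ, 0 < σ0 →
      (∀ N : ℕ, ∃ s σ : ℝ, (N : ℝ) ≤ s ∧ σ0 ≤ σ ∧ σ ≤ σ1 ∧
        Nr C ε (ws w (fun i => -(s * a i))) (ws (fun i => σ • z i) (fun i => -(s * a i)))) →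
      ∀ i, z i ∈ BI C w (lev a i)

/-- **Row PGH** (pigeonhole modulo the group).

Proof.  First claim: there is a compact `K0 ⊆ C` such that for every `w ∈ T` there are `g ∈ Γ₀`, `s > 0`
with `s • act g (∑ w) ∈ K0`.  Take a compact exhaustion `K_j` of the open set `C` (for example
`K_j = {x : ‖x‖ ≤ j, infDist x Cᶜ ≥ 1/(j+1)}`, or `CompactExhaustion` of the subtype); if `K_j` does not
work, choose `w_j ∈ T` without such `g, s`; `cpt`: a subsequence with `s_m • act g_m (∑ w_{φ m}) → p ∈ C`,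
which is in the interior of some `K_{j0}`; for large `m` `s_m • act g_m (∑ w_{φ m}) ∈ K_{j0} ⊆ K_{φ m}`,
contradiction.
`S = {w : T w, ∑ w ∈ K0}` is sequentially compact: `∑ x_m → p ∈ K0` on a subsequence,
`Pool.Agent.PFS.H37.lpsF` (vertices converge), `cld`.  The rest as in `Pool/Agent/Helper34_NTW/PIG.lean`
(there `TN`, here the weaker `Nr`; `tn_near` can be cited; `T` is invariant under `s • act g`: `inv`,
`scl`). -/
def PghStmt : Prop :=
  ∀ (n : ℕ) (C : Set (V n)) (Γ Γ₀ : Subgroup (GL (Fin n) ℝ)) (K : ℕ) (T : (Fin K → V n) → Prop)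
    (c : Finset (Fin K) → ℕ), TB C Γ Γ₀ T c → ∀ ε : ℝ, 0 < ε → ∃ N : ℕ,
    ∀ W : Fin (N + 1) → Fin K → V n, (∀ m, T (W m)) →
      ∃ m m' : Fin (N + 1), m ≠ m' ∧ ∃ g ∈ Γ₀, ∃ s : ℝ, 0 < s ∧
        Nr C ε (W m) (fun i => s • act g (W m' i))

/-- **Row FNG** (finitely many group elements, bounded factors).

Proof.  The set of the `γ` is contained in the finite set of `Pool.Agent.NTW.H17.fnt` (`FntStmt`: factor
`4` in the place of `2`; `4 x - p = 2 x + (2 x - p)`).  For the bounds of `s`: `PCone.absorb` and the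
finiteness: for each of the finitely many `γ` (or directly): `s act γ q ≤ 2 p`, `act γ q ∈ C`, so
`act γ q ≥ (1/A_γ) p`, `s (1/A_γ) p ≤ 2 p`, `s ≤ 2 A_γ` (otherwise `-p ∈ closure C`); similarly from
`p ≤ 2 s act γ q ≤ 2 s A'_γ p`, `s ≥ 1/(2 A'_γ)`; take the maximum over the finite set. -/
def FngStmt : Prop :=
  ∀ (n : ℕ) (C : Set (V n)) (Γ Γ₀ : Subgroup (GL (Fin n) ℝ)), CC C Γ → Γ₀ ≤ Γ →
    ∀ p ∈ C, ∀ q ∈ C,
    {γ : GL (Fin n) ℝ | γ ∈ Γ₀ ∧ ∃ s : ℝ, 0 < s ∧ (2 : ℝ) • (s • act γ q) - p ∈ closure C ∧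
      (2 : ℝ) • p - s • act γ q ∈ closure C}.Finite ∧
    ∃ σ0 σ1 : ℝ, 0 < σ0 ∧ ∀ γ ∈ Γ₀, ∀ s : ℝ, 0 < s →
      (2 : ℝ) • (s • act γ q) - p ∈ closure C → (2 : ℝ) • p - s • act γ q ∈ closure C →
      σ0 ≤ s ∧ s ≤ σ1

/-- **Row RTE** (among many positions on one flat two are related by an element which preserves the
levels).

Proof.  `Pot` also holds for `ε' = min ε (1/(2K))` in the place of `ε` (`Nr` is monotone in `ε`, the sum of
the vertices is in `closure C`).  `N` from PGH for `ε'`.  Let `w ∈ T` and positions `θ_0, …, θ_N`.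
For `s ∈ ℕ`: `W_m = ws w (θ_m - s a) ∈ T` (`scl`).  PGH: `m_s ≠ m'_s`, `g_s ∈ Γ₀`, `σ_s > 0`,
`Nr C ε' (W_m) (σ_s act g_s W_{m'})`.  NRU (3) with `t = s' ≤ s`: for all `0 ≤ s' ≤ s` (all real `s'`)
`Nr C ε' (ws w (θ_m - (s - s') a)) (σ_s act g_s (ws w (θ_{m'} - (s - s') a)))`.
`s' = s`: `Nr C ε' (ws w θ_m) (σ_s act g_s (ws w θ_{m'}))`; summing over `i`, `K ε' ≤ 1/2`:
`± (σ_s act g_s q - p) ≤ (1/2) p`, `p = xs w θ_m`, `q = xs w θ_{m'}`, so `2 (σ_s act g_s q) - p`,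
`2 p - σ_s act g_s q ∈ closure C`.  FNG (for each of the finitely many pairs `m, m'`): finitely many
triples `(m, m', γ)`, so one of them, `(m, m', γ)`, occurs for infinitely many `s`, and all these `σ_s`
are in one `[σ0, σ1]`.
NRD for `w := ws w θ_m`, `z := act γ (ws w θ_{m'})` (both in `T`): for every `N'` take such an `s ≥ N'` and
`s' = 0`: `Nr C ε' (ws (ws w θ_m) (-(s a))) (ws (σ_s z) (-(s a)))`.  So `z i ∈ BI C (ws w θ_m) (lev a i)
= BI C w (lev a i)` (BIN 1), `act γ (w i) ∈ BI C w (lev a i)` (divide by `e^{θ_{m',i}}`).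
`img γ (BI C w (lev a i)) = BI C (act γ w) (lev a i)` (BIN 2 with `s = 1`) `= BI C w (lev a i)` (BIN 3: for
`j ∈ lev a i` `lev a j = lev a i`, so `act γ (w j) ∈ BI C w (lev a i)`). -/
def RteStmt : Prop :=
  ∀ (n : ℕ) (C : Set (V n)) (Γ Γ₀ : Subgroup (GL (Fin n) ℝ)) (K : ℕ) (T : (Fin K → V n) → Prop)
    (c : Finset (Fin K) → ℕ), TB C Γ Γ₀ T c → ∀ (a : Fin K → ℝ) (ε : ℝ), Pot C T c a ε →
    ∃ N : ℕ, ∀ w : Fin K → V n, T w → ∀ θ : Fin (N + 1) → Fin K → ℝ,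
      ∃ m m' : Fin (N + 1), m ≠ m' ∧ ∃ γ ∈ Γ₀, ∃ s : ℝ, 0 < s ∧
        (∀ i, img γ (BI C w (lev a i)) = BI C w (lev a i)) ∧
        (2 : ℝ) • (s • act γ (xs w (θ m'))) - xs w (θ m) ∈ closure C ∧
        (2 : ℝ) • xs w (θ m) - s • act γ (xs w (θ m')) ∈ closure C

/-- **Row COC** (final row of section E; the statement `CocStmt` is in `StmtsM.lean`).

Proof.  Write `r m i = e^{t_m i}` (`t m i = log (r m i)`).  The relation of RTE between two positions is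
symmetric (apply `act γ⁻¹`, `s⁻¹`; `img γ⁻¹ L = L`).  Claim: there is `m0` such that `t m0` and `t m` are
related for infinitely many `m` (`(γ, s)` with `s act γ (xs w (t m))` between `(1/2) p` and `2 p`,
`p = xs w (t m0)`).  Otherwise, for every `m0` `t m0, t m` are unrelated for all large `m`; choose
recursively `m_0 < … < m_N` with no relation between different ones: contradicts RTE.  So on a
subsequence `φ`: `γ_m ∈ Γ₀, s_m > 0`, `img γ_m (BI C w (lev a i)) = BI C w (lev a i)`,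
`(1/2) p ≤ P_m := s_m act γ_m (xs w (t (φ m))) ≤ 2 p`.  The `P_m` are bounded (`PCone.normal`); on a
subsequence `P_m → P`, `2 P - p ∈ closure C`, so `P ∈ C`.  `Pool.Agent.PFS.H37.lpsF` for the simplices
`s_m act γ_m (ws w (t (φ m))) ∈ T`: on a further subsequence the vertices converge to `v`, `∑ v = P ∈ C`,
`T v` by `cld`.
`BI C v (lev a i) = BI C w (lev a i)`: `v j` is a limit of elements of
`img γ_m (BI C w (lev a j)) = BI C w (lev a j)`, which is closed, so `v j ∈ BI C w (lev a j) = BI C w (lev a i)`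
for `j ∈ lev a i`; BIN (3). -/
def CocRow : Prop := CocStmt

end Pool.Agent.NBT
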